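import Pool.Agent.H13.OT.Wrap

/-!
# LB PNDefs: limits of discs in a subset of `ℙ^N`
-/

set_option autoImplicit false

open Topology Filter Metric

namespace Pool.Agent.H36.LB

open Pool.Agent.H17 (PN HolomorphicInto ZariskiClosedIn)
open Pool.Agent.H13.OT (OrderTwo)

variable {N : ℕ}

/-- Near `z₀` the maps `F n` converge to `f`, uniformly on a disc around `z₀`: there are holomorphic homogeneous coordinates of the maps `F n`
which converge to homogeneous coordinates of `f`. -/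
def ConvPN (l : Filter ℕ) (F : ℕ → ℂ → PN N) (f : ℂ → PN N) (z₀ : ℂ) : Prop :=
  ∃ (s : ℝ) (Φ : ℕ → ℂ → Fin (N + 1) → ℂ) (Φ₀ : ℂ → Fin (N + 1) → ℂ), 0 < s ∧
    (∀ᶠ n in l, DifferentiableOn ℂ (Φ n) (ball z₀ s) ∧ ∀ z ∈ ball z₀ s, ∃ h : Φ n z ≠ 0, F n z = Projectivization.mk ℂ (Φ n z) h) ∧
    DifferentiableOn ℂ Φ₀ (ball z₀ s) ∧ (∀ z ∈ ball z₀ s, ∃ h : Φ₀ z ≠ 0, f z = Projectivization.mk ℂ (Φ₀ z) h) ∧
    TendstoLocallyUniformlyOn Φ Φ₀ l (ball z₀ s)

/-- The entire curve `f` in `ℙ^N`, with `f 0 ∈ U`, is the limit of the holomorphic maps `F n` from the discs of radius `n + 1` to `U`, near `0` and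
near every point outside a closed discrete set, and it has values in `U` at all points near which the maps `F n` converge. -/
structure IsLimitPN (U : Set (PN N)) (l : Filter ℕ) (F : ℕ → ℂ → PN N) (f : ℂ → PN N) : Prop where
  neBot : l.NeBot
  le_atTop : l ≤ atTop
  hol : HolomorphicInto f Set.univ
  zero_mem : f 0 ∈ U
  holF : ∀ n : ℕ, HolomorphicInto (F n) (ball 0 (n + 1))
  memF : ∀ n : ℕ, ∀ z ∈ ball (0 : ℂ) (n + 1), F n z ∈ U
  zero : ConvPN l F f 0
  conv : ∀ z₀ : ℂ, ∀ᶠ z in 𝓝[≠] z₀, ConvPN l F f z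
  mem_of_conv : ∀ z, ConvPN l F f z → f z ∈ U

/-- Every nonconstant limit `f` of discs in `U` with `T_f(r) = O(r²)` lies in `Ξ`, where it is in `U`. -/
def LimModPN (U Ξ : Set (PN N)) : Prop :=
  ∀ (l : Filter ℕ) (F : ℕ → ℂ → PN N) (f : ℂ → PN N), IsLimitPN U l F f → OrderTwo f → (∃ z w, f z ≠ f w) →
    ∀ z, f z ∈ U → f z ∈ Ξ

/-- An entire curve in `U` is a limit of discs. -/
theorem isLimitPN_const {U : Set (PN N)} {f : ℂ → PN N} (hf : HolomorphicInto f Set.univ) (hfU : ∀ z, f z ∈ U) :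
    IsLimitPN U atTop (fun _ => f) f := by
  have h1 : ∀ z₀, ConvPN atTop (fun _ => f) f z₀ := by
    intro z₀
    obtain ⟨φ, hφ, he⟩ := hf z₀ (Set.mem_univ _)
    obtain ⟨s, hs, hsb⟩ := Metric.eventually_nhds_iff_ball.1 (hφ.eventually_analyticAt.and he)
    refine ⟨s, fun _ => φ, φ, hs, Eventually.of_forall fun n => ⟨fun z hz => (hsb z hz).1.differentiableAt.differentiableWithinAt,
      fun z hz => (hsb z hz).2⟩, fun z hz => (hsb z hz).1.differentiableAt.differentiableWithinAt, fun z hz => (hsb z hz).2, ?_⟩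
    rw [Metric.tendstoLocallyUniformlyOn_iff]
    intro ε hε z hz
    exact ⟨Set.univ, univ_mem, Eventually.of_forall fun n w _ => by simpa using hε⟩
  exact ⟨inferInstance, le_refl _, hf, hfU 0, fun n z _ => hf z (Set.mem_univ _), fun _ z _ => hfU z, h1 0,
    fun z₀ => Eventually.of_forall fun z => h1 z, fun z _ => hfU z⟩

theorem LimModPN.brody {U Ξ : Set (PN N)} (h : LimModPN U Ξ) {f : ℂ → PN N} (hf : HolomorphicInto f Set.univ) (hord : OrderTwo f)
    (hfU : ∀ z, f z ∈ U) (hne : ∃ z w, f z ≠ f w) : ∀ z, f z ∈ Ξ := fun z =>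
  h _ _ f (isLimitPN_const hf hfU) hord hne z (hfU z)

end Pool.Agent.H36.LB
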