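import Pool.Agent.H36.LB.Start
import Pool.Agent.H62.SA.FinalF

/-!
# LB Final: open surfaces of log general type, the complement of a curve

`IsCurveComplement P G`: the complement of `U = locVar P G` in the closed variety `X` given by `P` is locally given by one equation.
-/

set_option autoImplicit false

open Topology Filter MvPolynomial

noncomputable section

namespace Pool.Agent.H36.LB

open Pool.Agent.H17 (PN VanishesAt ZariskiClosedIn HolomorphicInto puncturedDisc)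
open Pool.Agent.H62.FC (Homog)
open Pool.Agent.H62.SA (locVar OnBd locCone locCone_smul locCone_subset rep_mem_locCone mk_mem_locVar exists_formF_of_smooth)
open Pool.Agent.H17BP (Surface IsChart IsForm NoZeros rep_mem_cone vanishesAt_mk rep_mk_fin)
open Pool.Agent.H17LG.Variety (FunField IsLogGeneralType)
open Pool.Agent.H13.SM (conTan)
open Pool.Agent.H14.KB (KobayashiHyperbolicModulo)
open Pool.Agent.H36.BPL (OpenPart analyticAt_form)
open Pool.Agent.H68.KR (cone)

variable {N : ℕ} {P : Ideal (MvPolynomial (Fin (N + 1)) ℂ)} {s : ℕ} {G : Fin s → MvPolynomial (Fin (N + 1)) ℂ} {e : Fin s → ℕ}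

/-- The complement of `U = locVar P G` in the zero locus `X` of `P` is locally given by one equation: every point of `X` has a neighbourhood
`{A ≠ 0}` in which `X ∖ U` is the zero set of one form `R`. -/
def IsCurveComplement (P : Ideal (MvPolynomial (Fin (N + 1)) ℂ)) (G : Fin s → MvPolynomial (Fin (N + 1)) ℂ) : Prop :=
  ∀ x : PN N, (∀ Q ∈ P, ∀ n, Q.IsHomogeneous n → VanishesAt Q x) →
    ∃ (A R : MvPolynomial (Fin (N + 1)) ℂ) (a r : ℕ), A.IsHomogeneous a ∧ R.IsHomogeneous r ∧ ¬ VanishesAt A x ∧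
      ∀ y : PN N, (∀ Q ∈ P, ∀ n, Q.IsHomogeneous n → VanishesAt Q y) → ¬ VanishesAt A y →
        (y ∈ locVar P G ↔ ¬ VanishesAt R y)

theorem openPart_of_curveComplement (hP : Homog P) (hG : ∀ m, (G m).IsHomogeneous (e m)) (h : IsCurveComplement P G) :
    OpenPart (cone P) (locCone P G) where
  sub := locCone_subset G
  smul := locCone_smul hP hG
  eqn x hx := by
    have hmem : ∀ (y : Fin (N + 1) → ℂ) (hy : y ∈ cone P), ∀ Q ∈ P, ∀ n, Q.IsHomogeneous n →
        VanishesAt Q (Projectivization.mk ℂ y hy.1) := by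
      intro y hy Q hQ n hQn
      rw [vanishesAt_mk hQn]
      exact hy.2 Q hQ
    obtain ⟨A, R, a, r, hA, hR, hAx, hiff⟩ := h _ (hmem x hx)
    rw [vanishesAt_mk hA] at hAx
    refine ⟨fun y => eval y R, analyticAt_form _ x, ?_⟩
    filter_upwards [(analyticAt_form A x).continuousAt.eventually_ne hAx] with y hy hyX
    have h1 := hiff (Projectivization.mk ℂ y hyX.1) (hmem y hyX) (by rwa [vanishesAt_mk hA])
    rw [vanishesAt_mk hR, mk_mem_locVar hP hG] at h1
    rw [h1, not_not]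

/-- A surface which is proper over an affine variety is the complement of a curve. -/
theorem curveComplement_of_proper {M : ℕ} {F : Fin s → Fin (M + 1) → MvPolynomial (Fin (N + 1)) ℂ}
    (h : Pool.Agent.H62.SA.IsProperMap P G F e) : IsCurveComplement P G := by
  intro x hx
  obtain ⟨m, j, hm⟩ := h.noZero x hx
  refine ⟨F m j, G m, e m, e m, h.hom m j, h.homG m, hm, fun y hy hA => ⟨?_, fun h1 => ⟨hy, m, h1⟩⟩⟩
  rintro ⟨-, n, hn⟩ h0
  have hyc : ∀ (Q : MvPolynomial (Fin (N + 1)) ℂ) (d : ℕ), Q.IsHomogeneous d → (VanishesAt Q y ↔ eval y.rep Q = 0) := by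
    intro Q d hQ
    have h2 := vanishesAt_mk hQ y.rep_nonzero
    rwa [Projectivization.mk_rep] at h2
  have hh : (F m j * G n - F n j * G m).IsHomogeneous (e m + e n) := by
    have h2 := (h.hom m j).mul (h.homG n)
    have h3 := (h.hom n j).mul (h.homG m)
    rw [add_comm (e n) (e m)] at h3
    exact h2.sub h3
  have h1 := hy _ (h.rel m n j) (e m + e n) hh
  rw [hyc _ _ hh, map_sub, map_mul, map_mul] at h1
  rw [hyc _ _ (h.homG n)] at hn
  rw [hyc _ _ (h.hom m j)] at hA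
  rw [hyc _ _ (h.homG m)] at h0
  rw [h0, mul_zero, sub_zero] at h1
  exact mul_ne_zero hA hn h1

/-- **The main theorem.** -/
theorem lim_surface [P.IsPrime] (hP : Homog P) {z : Fin 2 → FunField P} (hz : IsTranscendenceBasis ℂ z)
    (hsm : ∀ y : Fin (N + 1) → ℂ, y ≠ 0 → (∀ Q ∈ P, eval y Q = 0) → Module.finrank ℂ (conTan P y) ≤ 3)
    (hG : ∀ m, (G m).IsHomogeneous (e m)) (hO : OpenPart (cone P) (locCone P G))
    (hgt : IsLogGeneralType (K := FunField P) (k := 2) (OnBd P G))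
    {Ξ : Set (PN N)} (hΞ : ZariskiClosedIn (locVar P G) Ξ) (hne : Ξ ≠ locVar P G) (hbr : LimModPN (locVar P G) Ξ) :
    ∃ (Q : MvPolynomial (Fin (N + 1)) ℂ) (D : ℕ), Q.IsHomogeneous D ∧
      (∃ x ∈ locVar P G, ¬ VanishesAt Q x) ∧ (∀ x ∈ Ξ, VanishesAt Q x) ∧
      KobayashiHyperbolicModulo (locVar P G) Q D ∧
      ∀ f : ℂ → PN N, HolomorphicInto f puncturedDisc → (∀ z ∈ puncturedDisc, f z ∈ locVar P G) →
        (∃ z ∈ puncturedDisc, ¬ VanishesAt Q (f z)) →
        ∃ g : ℂ → PN N, HolomorphicInto g (Metric.ball 0 1) ∧ ∀ z ∈ puncturedDisc, g z = f z := by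
  have hX : Surface (cone P) := Pool.Agent.H13.SM.surface_cone hP hz fun y hy => hsm y hy.1 hy.2
  have hthin : ∀ σ τ, IsChart (cone P) σ τ → ∀ (d : ℕ) (Q : MvPolynomial (Fin (N + 1)) ℂ), Q.IsHomogeneous d →
      Q ∉ P → ∃ᶠ p in 𝓝 (0 : ℂ × ℂ), eval (σ p) Q ≠ 0 := fun σ τ h d Q hQ hQP =>
    Pool.Agent.H13.SM.frequently_ne_zero hP hz (fun y hy => hsm y hy.1 hy.2) h hQ hQP
  obtain ⟨k, Ω, D₀, Q₀, hk, hQ₀, hQ₀P, hΩ, hnz, hpole⟩ := exists_formF_of_smooth P hP hz hG hsm hgt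
  obtain ⟨Q, D, hQ, -, hex, hQΞ, m, j, Ω', hmodel⟩ := exists_modelL hP hG hO hX hthin hk hΩ hpole hQ₀ hQ₀P hnz hΞ hne hbr
  refine ⟨Q, D, hQ, hex, hQΞ, ?_, fun f hf hfX hfQ => extends_of_modelL hP hmodel hf hfX hfQ⟩
  exact Pool.Agent.H14.KB.kobayashi_of_kobK (fun x hx => (rep_mem_locCone hP).2 hx) (picKob_of_modelL hmodel).2

end Pool.Agent.H36.LB
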