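import Pool.Agent.H36.LB.Cv
import Pool.Agent.H36.BPL.Defs
import Pool.Agent.H62.Log.Hurwitz

/-!
# LB Hur: Hurwitz' theorem for the boundary
-/

set_option autoImplicit false

open Topology Filter Metric

namespace Pool.Agent.H36.LB

open Pool.Agent.H17BP (Pr HolP)
open Pool.Agent.H36.BPL (OpenPart)

variable {V : Type} [NormedAddCommGroup V] [NormedSpace ℂ V]

/-- Hurwitz' theorem for a function `h` which is holomorphic near the value of the limit. -/
theorem hur_local {h : V → ℂ} {l : Filter ℕ} (hl : l.NeBot) {F : ℕ → ℂ → V} {H : ℂ → V} {z₀ : ℂ} {s : ℝ}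
    (hs : 0 < s) (hF : ∀ᶠ n in l, DifferentiableOn ℂ (F n) (ball z₀ s)) (hH : DifferentiableOn ℂ H (ball z₀ s))
    (hlim : TendstoLocallyUniformlyOn F H l (ball z₀ s)) (hh : AnalyticAt ℂ h (H z₀)) (h0 : h (H z₀) = 0)
    (hne' : ∃ O ∈ 𝓝 (H z₀), ∀ᶠ n in l, ∀ z ∈ ball z₀ s, F n z ∈ O → h (F n z) ≠ 0) :
    ∀ᶠ z in 𝓝 z₀, h (H z) = 0 := by
  obtain ⟨O, hO, hne'⟩ := hne'
  have hmem : z₀ ∈ ball z₀ s := mem_ball_self hs
  have hHc : ContinuousAt H z₀ := (hH.differentiableAt (isOpen_ball.mem_nhds hmem)).continuousAt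
  obtain ⟨ε, hε, hεb⟩ := Metric.eventually_nhds_iff_ball.1 (hh.eventually_analyticAt.and hO)
  have hev : ∀ᶠ z in 𝓝 z₀, z ∈ ball z₀ s ∧ dist (H z) (H z₀) < ε / 2 := by
    filter_upwards [isOpen_ball.mem_nhds hmem, Metric.tendsto_nhds.1 hHc (ε / 2) (by positivity)] with z h1 h2
    exact ⟨h1, h2⟩
  obtain ⟨r, hr, hrb⟩ := Metric.eventually_nhds_iff_ball.1 hev
  have hsub : closedBall z₀ (r / 2) ⊆ ball z₀ r := closedBall_subset_ball (by linarith)
  have hsub2 : ball z₀ (r / 2) ⊆ ball z₀ r := ball_subset_closedBall.trans hsub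
  have hunif : ∀ᶠ n in l, ∀ z ∈ closedBall z₀ (r / 2), dist (H z) (F n z) < ε / 2 :=
    Metric.tendstoUniformlyOn_iff.1 ((tendstoLocallyUniformlyOn_iff_tendstoUniformlyOn_of_compact
      (isCompact_closedBall z₀ (r / 2))).1 (hlim.mono fun z hz => (hrb z (hsub hz)).1)) _ (by positivity)
  have hin : ∀ᶠ n in l, ∀ z ∈ ball z₀ (r / 2), F n z ∈ ball (H z₀) ε := by
    filter_upwards [hunif] with n hn z hz
    have h1 := hn z (ball_subset_closedBall hz)
    have h2 := (hrb z (hsub2 hz)).2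
    rw [mem_ball]
    calc dist (F n z) (H z₀) ≤ dist (F n z) (H z) + dist (H z) (H z₀) := dist_triangle _ _ _
      _ < ε := by rw [dist_comm (F n z)]; linarith
  have hinH : ∀ z ∈ ball z₀ (r / 2), H z ∈ ball (H z₀) ε := by
    intro z hz
    have h2 := (hrb z (hsub2 hz)).2
    rw [mem_ball]
    linarith
  have hl' : (Ultrafilter.of l : Filter ℕ) ≤ l := Ultrafilter.of_le l
  have key := Pool.Agent.H62.Log.hurwitz (Ultrafilter.of l) (φ := fun n z => h (F n z)) (ψ := fun z => h (H z)) (a := z₀) (r := r / 2)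
    (by
      filter_upwards [hl' hF, hl' hin] with n h1 h2 z hz
      have h3 : DifferentiableAt ℂ (F n) z := h1.differentiableAt (isOpen_ball.mem_nhds (hrb z (hsub2 hz)).1)
      exact (DifferentiableAt.comp (g := h) z (hεb _ (h2 z hz)).1.differentiableAt h3).differentiableWithinAt)
    (by
      filter_upwards [hl' hne', hl' hin] with n h1 h2 z hz
      exact h1 z (hrb z (hsub2 hz)).1 (hεb _ (h2 z hz)).2)
    (by
      intro z hz
      have h3 : DifferentiableAt ℂ H z := hH.differentiableAt (isOpen_ball.mem_nhds (hrb z (hsub2 hz)).1)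
      exact (DifferentiableAt.comp (g := h) z (hεb _ (hinH z hz)).1.differentiableAt h3).differentiableWithinAt)
    (by
      intro w z hz hw
      have h1 : Tendsto (fun n => F n (w n)) (Ultrafilter.of l : Filter ℕ) (𝓝 (H z)) := by
        have hzs : z ∈ ball z₀ s := (hrb z (hsub2 hz)).1
        have h2 := (hlim.mono (s' := ball z₀ (r / 2)) fun z hz => (hrb z (hsub2 hz)).1)
        have h3 := (tendstoLocallyUniformlyOn_iff_forall_tendsto.1 h2) z hz
        have h4 : Tendsto (fun n => (n, w n)) (Ultrafilter.of l : Filter ℕ) (l ×ˢ 𝓝[ball z₀ (r / 2)] z) := by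
          refine Tendsto.prodMk (tendsto_id'.2 hl') ?_
          rw [isOpen_ball.nhdsWithin_eq hz]
          exact hw
        have h5 := h3.comp h4
        have h6 : Tendsto (fun n => H (w n)) (Ultrafilter.of l : Filter ℕ) (𝓝 (H z)) :=
          ((hH.differentiableAt (isOpen_ball.mem_nhds hzs)).continuousAt.tendsto).comp hw
        rw [Metric.tendsto_nhds] at h6 ⊢
        intro δ hδ
        have h7 := h5 (Metric.dist_mem_uniformity (show (0 : ℝ) < δ / 2 by positivity))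
        filter_upwards [h6 (δ / 2) (by positivity), h7] with n h8 h9
        have h9 : dist (H (w n)) (F n (w n)) < δ / 2 := h9
        calc dist (F n (w n)) (H z) ≤ dist (F n (w n)) (H (w n)) + dist (H (w n)) (H z) := dist_triangle _ _ _
          _ < δ := by rw [dist_comm (F n (w n))]; linarith
      exact ((hεb _ (hinH z hz)).1.continuousAt.tendsto).comp h1)
  rcases key with h1 | h1
  · filter_upwards [ball_mem_nhds z₀ (show 0 < r / 2 by positivity)] with z hz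
    exact h1 z hz
  · exact absurd h0 (h1 z₀ (mem_ball_self (by positivity)))

/-- Hurwitz' theorem for an open part. -/
theorem hur_openPart {X K : Set V} (hX : ∀ x ∈ closure X, x ≠ 0 → x ∈ X) (hK : OpenPart X K) {l : Filter ℕ} (hl : l.NeBot)
    {F : ℕ → ℂ → V} {H : ℂ → V} {z₀ : ℂ} {s : ℝ} (hs : 0 < s)
    (hF : ∀ᶠ n in l, DifferentiableOn ℂ (F n) (ball z₀ s) ∧ ∀ z ∈ ball z₀ s, F n z ∈ K) (hH : DifferentiableOn ℂ H (ball z₀ s))
    (hlim : TendstoLocallyUniformlyOn F H l (ball z₀ s)) (hH0 : H z₀ ≠ 0) (h0 : H z₀ ∉ K) : ∀ᶠ z in 𝓝 z₀, H z ∉ K := by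
  have hmem : z₀ ∈ ball z₀ s := mem_ball_self hs
  have hHc : ContinuousAt H z₀ := (hH.differentiableAt (isOpen_ball.mem_nhds hmem)).continuousAt
  have hcl : ∀ z ∈ ball z₀ s, H z ∈ closure X := by
    intro z hz
    refine mem_closure_of_tendsto (hlim.tendsto_at hz) ?_
    filter_upwards [hF] with n hn
    exact hK.sub (hn.2 z hz)
  have hxX : H z₀ ∈ X := hX _ (hcl z₀ hmem) hH0
  obtain ⟨h, hh, he⟩ := hK.eqn (H z₀) hxX
  have h00 : h (H z₀) = 0 := (he.self_of_nhds hxX).1 h0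
  have hO : {y | y ∈ X → (y ∉ K ↔ h y = 0)} ∈ 𝓝 (H z₀) := he
  have hne' : ∀ᶠ n in l, ∀ z ∈ ball z₀ s, F n z ∈ {y | y ∈ X → (y ∉ K ↔ h y = 0)} → h (F n z) ≠ 0 := by
    filter_upwards [hF] with n hn z hz hy h1
    exact ((hy (hK.sub (hn.2 z hz))).2 h1) (hn.2 z hz)
  have key := hur_local hl hs (hF.mono fun n hn => hn.1) hH hlim hh h00 ⟨_, hO, hne'⟩
  filter_upwards [key, hHc.eventually hO, hHc.eventually_ne hH0, isOpen_ball.mem_nhds hmem] with z h1 h2 h3 h4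
  exact (h2 (hX _ (hcl z h4) h3)).2 h1

/-- A holomorphic curve in `X` lies in `X ∖ K` or meets it in isolated points. -/
theorem iso_openPart {X K : Set V} (hXs : ∀ x ∈ X, ∀ c : ℂ, c ≠ 0 → c • x ∈ X) (hK : OpenPart X K) {f : ℂ → V} {z₀ : ℂ}
    (hf : HolP f z₀) (hfX : ∀ᶠ z in 𝓝 z₀, f z ∈ X) : (∀ᶠ z in 𝓝 z₀, f z ∉ K) ∨ ∀ᶠ z in 𝓝[≠] z₀, f z ∈ K := by
  obtain ⟨Φ, hΦ, hΦ0, he⟩ := hf
  have hΦX : ∀ᶠ z in 𝓝 z₀, Φ z ∈ X := by
    filter_upwards [hfX, he] with z h1 h2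
    exact (h2.mem_iff hXs).1 h1
  obtain ⟨h, hh, hhe⟩ := hK.eqn (Φ z₀) hΦX.self_of_nhds
  have hc : AnalyticAt ℂ (fun z => h (Φ z)) z₀ := AnalyticAt.comp (g := h) (f := Φ) hh hΦ
  have h1 := hΦ.continuousAt.eventually hhe
  have hiff : ∀ᶠ z in 𝓝 z₀, (f z ∉ K ↔ h (Φ z) = 0) := by
    filter_upwards [h1, hΦX, he] with z h2 h3 h4
    rw [← h2 h3, h4.mem_iff hK.smul]
  rcases hc.eventually_eq_zero_or_eventually_ne_zero with h2 | h2
  · left
    filter_upwards [h2, hiff] with z h3 h4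
    exact h4.2 h3
  · right
    filter_upwards [h2, hiff.filter_mono nhdsWithin_le_nhds] with z h3 h4
    by_contra h5
    exact h3 (h4.1 h5)

/-- Near a point of `K` a holomorphic curve in `X` lies in `K`. -/
theorem mem_near {X K : Set V} (hXs : ∀ x ∈ X, ∀ c : ℂ, c ≠ 0 → c • x ∈ X) (hK : OpenPart X K) {f : ℂ → V} {z₀ : ℂ}
    (hf : HolP f z₀) (hfX : ∀ᶠ z in 𝓝 z₀, f z ∈ X) (h0 : f z₀ ∈ K) : ∀ᶠ z in 𝓝 z₀, f z ∈ K := by
  obtain ⟨Φ, hΦ, hΦ0, he⟩ := hf
  have h1 : Φ z₀ ∈ K := (he.self_of_nhds.mem_iff hK.smul).1 h0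
  filter_upwards [hΦ.continuousAt.eventually (hK.rel _ h1), hfX, he] with z h2 h3 h4
  exact (h4.mem_iff hK.smul).2 (h2 ((h4.mem_iff hXs).1 h3))

/-- The limit curve is not contained in the boundary. -/
theorem LimCurve.iso {X K : Set V} (hXs : ∀ x ∈ X, ∀ c : ℂ, c ≠ 0 → c • x ∈ X) (hK : OpenPart X K) {l : Filter ℕ}
    {F : ℕ → ℂ → V} {f : ℂ → V} (h : LimCurve X K l F f) (z₀ : ℂ) : ∀ᶠ z in 𝓝[≠] z₀, f z ∈ K := by
  set A : Set ℂ := {z | ∀ᶠ w in 𝓝 z, f w ∉ K} with hA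
  have hAo : IsOpen A := by
    rw [isOpen_iff_mem_nhds]
    intro z hz
    exact hz.eventually_nhds
  have hX : ∀ z, ∀ᶠ w in 𝓝 z, f w ∈ X := fun z => Eventually.of_forall h.mem
  have hAc : IsClosed A := by
    rw [← isOpen_compl_iff, isOpen_iff_mem_nhds]
    intro z hz
    rcases iso_openPart hXs hK (h.hol z) (hX z) with h1 | h1
    · exact absurd h1 hz
    · rw [eventually_nhdsWithin_iff] at h1
      filter_upwards [h1.eventually_nhds] with w hw hwA
      by_cases hwz : w = z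
      · rw [hwz] at hwA
        exact hz hwA
      · exact hwA.self_of_nhds (hw.self_of_nhds hwz)
  rcases isClopen_iff.1 ⟨hAc, hAo⟩ with h1 | h1
  · rcases iso_openPart hXs hK (h.hol z₀) (hX z₀) with h2 | h2
    · have : z₀ ∈ A := h2
      rw [h1] at this
      exact absurd this (Set.notMem_empty _)
    · exact h2
  · exfalso
    have h2 : (0 : ℂ) ∈ A := by
      rw [h1]
      trivial
    have h3 : ∀ᶠ w in 𝓝 (0 : ℂ), f w ∉ K := h2
    exact h3.self_of_nhds h.zero_mem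

/-- Where the curves converge the limit lies in `K`. -/
theorem LimCurve.mem_of_conv {X K : Set V} (hXs : ∀ x ∈ X, ∀ c : ℂ, c ≠ 0 → c • x ∈ X) (hXc : ∀ x ∈ closure X, x ≠ 0 → x ∈ X)
    (hK : OpenPart X K) {l : Filter ℕ}
    {F : ℕ → ℂ → V} {f : ℂ → V} (h : LimCurve X K l F f) {z : ℂ} (hz : ConvP l F f z) : f z ∈ K := by
  by_contra hzK
  obtain ⟨s, Φ, Φ₀, hs, hΦ, hΦ₀, hf, hlim⟩ := hz
  have hmem : z ∈ ball z s := mem_ball_self hs
  have h1 : Φ₀ z ∉ K := fun h2 => hzK (((hf z hmem).2.mem_iff hK.smul).2 h2)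
  obtain ⟨n₀, hn₀⟩ := exists_nat_ge (‖z‖ + s)
  have h2 := hur_openPart hXc hK h.neBot hs (by
    filter_upwards [hΦ, h.le_atTop (eventually_ge_atTop n₀)] with n hn hn2
    refine ⟨hn.1, fun w hw => ?_⟩
    have h3 : w ∈ ball (0 : ℂ) (n + 1) := by
      rw [mem_ball_zero_iff]
      have h2 : ‖w - z‖ < s := by simpa [dist_eq_norm] using hw
      have h3 : ‖w‖ ≤ ‖w - z‖ + ‖z‖ := by
        have := norm_add_le (w - z) z
        rwa [sub_add_cancel] at this
      have h4 : (n₀ : ℝ) ≤ n := by exact_mod_cast hn2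
      linarith
    exact ((hn.2 w hw).mem_iff hK.smul).1 (h.memF n w h3)) hΦ₀ hlim (hf z hmem).1 h1
  have h3 : ∀ᶠ w in 𝓝[≠] z, f w ∉ K := by
    filter_upwards [h2.filter_mono nhdsWithin_le_nhds, nhdsWithin_le_nhds (isOpen_ball.mem_nhds hmem)] with w hw hws h4
    exact hw (((hf w hws).2.mem_iff hK.smul).1 h4)
  obtain ⟨w, hw1, hw2⟩ := (h3.and (h.iso hXs hK z)).exists
  exact hw1 hw2

end Pool.Agent.H36.LB
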