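import Pool.Agent.H36.LB.PNDefs
import Pool.Agent.H14.KB.KobBrody

/-!
# LB KobL: Kobayashi hyperbolicity modulo a curve implies that the limits of discs lie in this curve
-/

set_option autoImplicit false

open Topology Filter MvPolynomial Metric

noncomputable section

namespace Pool.Agent.H36.LB

open Pool.Agent.H17 (PN VanishesAt ZariskiClosedIn HolomorphicInto)
open Pool.Agent.H17BP (vanishesAt_mk)
open Pool.Agent.H14.KB (KobayashiHyperbolicModulo PseudoKobayashiHyperbolic const_of_deriv)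
open Pool.Agent.H13.OT (OrderTwo)

variable {N : ℕ}

/-- The Kobayashi-Royden metric of `U` is bounded below near the point `x`: for all holomorphic maps `f` from the unit disc to `U` with `f 0` near `x` (`F` is a
lift of `f` near `0`, with `F 0` near a representative of `x`) the length of the derivative of `f` at `0` with respect to the Fubini-Study metric is at
most `C`. -/
def RoydenPos (U : Set (PN N)) (x : PN N) : Prop :=
  ∃ C : ℝ, ∀ᶠ v in 𝓝 x.rep, ∀ (f : ℂ → PN N) (F : ℂ → Fin (N + 1) → ℂ), HolomorphicInto f (ball 0 1) →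
    (∀ z ∈ ball (0 : ℂ) 1, f z ∈ U) → AnalyticAt ℂ F 0 →
    (∀ᶠ z in 𝓝 (0 : ℂ), ∃ h : F z ≠ 0, f z = Projectivization.mk ℂ (F z) h) → F 0 = v →
    ∃ a : ℂ, ‖deriv F 0 - a • F 0‖ ≤ C * ‖F 0‖

/-- A limit of discs in `U` which has a value (at a point of convergence) where the Kobayashi-Royden metric is bounded below is constant. -/
theorem limit_const_of_royden {U : Set (PN N)} {l : Filter ℕ} {F : ℕ → ℂ → PN N} {f : ℂ → PN N} (hf : IsLimitPN U l F f) {z₁ : ℂ}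
    (hz₁ : ConvPN l F f z₁) (hR : RoydenPos U (f z₁)) (u w : ℂ) : f u = f w := by
  have := hf.neBot
  obtain ⟨C₀, hC₀⟩ := hR
  obtain ⟨s, Φ, Φ₀, hs, hΦ, hΦ₀, hfΦ, hlim⟩ := hz₁
  have hzs : z₁ ∈ ball z₁ s := mem_ball_self hs
  have hF0 : Φ₀ z₁ ≠ 0 := (hfΦ z₁ hzs).choose
  have hΦ₀an : ∀ w ∈ ball z₁ s, AnalyticAt ℂ Φ₀ w := fun w hw => hΦ₀.analyticAt (isOpen_ball.mem_nhds hw)
  obtain ⟨c, hc⟩ : ∃ c : ℂ, c • Φ₀ z₁ = (f z₁).rep := by
    obtain ⟨h1, h2⟩ := hfΦ z₁ hzs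
    have h3 : Projectivization.mk ℂ (f z₁).rep (f z₁).rep_nonzero = Projectivization.mk ℂ (Φ₀ z₁) h1 := by
      rw [Projectivization.mk_rep, h2]
    rw [Projectivization.mk_eq_mk_iff'] at h3
    exact h3
  have hc0 : c ≠ 0 := by
    rintro rfl
    rw [zero_smul] at hc
    exact (f z₁).rep_nonzero hc.symm
  have hder : TendstoLocallyUniformlyOn (deriv ∘ Φ) (deriv Φ₀) l (ball z₁ s) :=
    hlim.deriv (hΦ.mono fun n hn => hn.1) isOpen_ball
  -- the bound near the point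
  have hev : ∀ᶠ w in 𝓝 z₁, ∀ᶠ v in 𝓝 (c • Φ₀ w), ∀ (f : ℂ → PN N) (F : ℂ → Fin (N + 1) → ℂ), HolomorphicInto f (ball 0 1) →
      (∀ z ∈ ball (0 : ℂ) 1, f z ∈ U) → AnalyticAt ℂ F 0 →
      (∀ᶠ z in 𝓝 (0 : ℂ), ∃ h : F z ≠ 0, f z = Projectivization.mk ℂ (F z) h) → F 0 = v →
      ∃ a : ℂ, ‖deriv F 0 - a • F 0‖ ≤ C₀ * ‖F 0‖ := by
    rw [← hc] at hC₀
    have h1 : ContinuousAt (fun w => c • Φ₀ w) z₁ := (hΦ₀an z₁ hzs).continuousAt.const_smul c
    exact h1.eventually hC₀.eventually_nhds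
  -- the derivative is proportional to the curve
  have key : ∀ᶠ w in 𝓝 z₁, ∃ a : ℂ, deriv Φ₀ w = a • Φ₀ w := by
    filter_upwards [isOpen_ball.mem_nhds hzs, hev] with w hw hbw
    have hw0 : Φ₀ w ≠ 0 := (hfΦ w hw).choose
    have hlw : Tendsto (fun n => Φ n w) l (𝓝 (Φ₀ w)) := hlim.tendsto_at hw
    have hdw : Tendsto (fun n => deriv (Φ n) w) l (𝓝 (deriv Φ₀ w)) := hder.tendsto_at hw
    have hR : Tendsto (fun n : ℕ => ((n : ℝ) + 1 - ‖w‖)) l atTop := by
      have h1 : Tendsto (fun n : ℕ => ((n : ℝ) + (1 - ‖w‖))) atTop atTop :=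
        tendsto_atTop_add_const_right _ _ tendsto_natCast_atTop_atTop
      exact (h1.mono_left hf.le_atTop).congr fun n => by ring
    have hbn : ∀ᶠ n in l, ∀ (f : ℂ → PN N) (F : ℂ → Fin (N + 1) → ℂ), HolomorphicInto f (ball 0 1) →
      (∀ z ∈ ball (0 : ℂ) 1, f z ∈ U) → AnalyticAt ℂ F 0 →
      (∀ᶠ z in 𝓝 (0 : ℂ), ∃ h : F z ≠ 0, f z = Projectivization.mk ℂ (F z) h) → F 0 = c • Φ n w →
      ∃ a : ℂ, ‖deriv F 0 - a • F 0‖ ≤ C₀ * ‖F 0‖ := (hlw.const_smul c).eventually hbw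
    -- the bound
    have hbd : ∀ᶠ n : ℕ in l, ∃ a : ℂ, ((n : ℝ) + 1 - ‖w‖) * ‖deriv (Φ n) w - a • Φ n w‖ ≤ C₀ * ‖Φ n w‖ := by
      filter_upwards [hΦ, hR.eventually_gt_atTop 0, hbn] with n h1 h2 h3
      set R : ℝ := (n : ℝ) + 1 - ‖w‖ with hRdef
      have hRc : (R : ℂ) ≠ 0 := by exact_mod_cast h2.ne'
      have hΦw : AnalyticAt ℂ (Φ n) w := h1.1.analyticAt (isOpen_ball.mem_nhds hw)
      have haff : ∀ u : ℂ, AnalyticAt ℂ (fun u : ℂ => w + R * u) u := fun u =>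
        analyticAt_const.add (analyticAt_const.mul analyticAt_id)
      have htd : Tendsto (fun u : ℂ => w + R * u) (𝓝 0) (𝓝 w) := by
        have := (haff 0).continuousAt.tendsto
        simpa using this
      have hmem : ∀ u ∈ ball (0 : ℂ) 1, w + R * u ∈ ball (0 : ℂ) (n + 1) := by
        intro u hu
        rw [mem_ball_zero_iff] at hu ⊢
        calc ‖w + R * u‖ ≤ ‖w‖ + R * ‖u‖ := by
              refine (norm_add_le _ _).trans ?_
              rw [norm_mul, Complex.norm_real, Real.norm_of_nonneg h2.le]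
          _ < n + 1 := by
              have : R * ‖u‖ < R := by nlinarith
              linarith
      have hcomp0 : AnalyticAt ℂ (fun u : ℂ => Φ n (w + R * u)) 0 :=
        AnalyticAt.comp (g := Φ n) (f := fun u : ℂ => w + R * u) (by simpa using hΦw) (haff 0)
      have hcomp : AnalyticAt ℂ (fun u : ℂ => c • Φ n (w + R * u)) 0 :=
        (analyticAt_const (v := c)).smul hcomp0
      obtain ⟨a, ha⟩ := h3 (fun u => F n (w + R * u)) (fun u => c • Φ n (w + R * u)) (by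
        intro u hu
        obtain ⟨φ, hφ, he⟩ := hf.holF n (w + R * u) (hmem u hu)
        exact ⟨fun u => φ (w + R * u), AnalyticAt.comp (g := φ) (f := fun u : ℂ => w + R * u) hφ (haff u),
          (haff u).continuousAt.tendsto.eventually he⟩) (fun u hu => hf.memF n _ (hmem u hu))
        hcomp (by
          filter_upwards [htd.eventually (isOpen_ball.mem_nhds hw)] with u hu
          obtain ⟨h4, h5⟩ := h1.2 _ hu
          refine ⟨smul_ne_zero hc0 h4, ?_⟩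
          rw [h5, Projectivization.mk_eq_mk_iff']
          exact ⟨c⁻¹, by rw [smul_smul, inv_mul_cancel₀ hc0, one_smul]⟩) (by simp)
      have hd : HasDerivAt (fun u : ℂ => c • Φ n (w + R * u)) (c • (R : ℂ) • deriv (Φ n) w) 0 := by
        have h5 : HasDerivAt (fun u : ℂ => w + R * u) (R : ℂ) 0 := by
          simpa using ((hasDerivAt_id (0 : ℂ)).const_mul (R : ℂ)).const_add w
        have h6 : HasDerivAt (Φ n) (deriv (Φ n) w) ((fun u : ℂ => w + R * u) 0) := by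
          simpa using hΦw.differentiableAt.hasDerivAt
        exact (h6.scomp 0 h5).const_smul c
      rw [hd.deriv] at ha
      simp only [mul_zero, add_zero] at ha
      refine ⟨a / R, ?_⟩
      have h5 : c • (R : ℂ) • deriv (Φ n) w - a • c • Φ n w = c • (R : ℂ) • (deriv (Φ n) w - (a / R) • Φ n w) := by
        rw [smul_sub, smul_sub, smul_smul (R : ℂ), mul_div_cancel₀ _ hRc, smul_comm a c]
      rw [h5, norm_smul, norm_smul, Complex.norm_real, Real.norm_of_nonneg h2.le, norm_smul] at ha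
      have hcp : 0 < ‖c‖ := norm_pos_iff.2 hc0
      have h6 : ‖c‖ * (R * ‖deriv (Φ n) w - (a / R) • Φ n w‖) ≤ ‖c‖ * (C₀ * ‖Φ n w‖) := by
        calc _ ≤ _ := ha
          _ = ‖c‖ * (C₀ * ‖Φ n w‖) := by ring
      exact le_of_mul_le_mul_left h6 hcp
    -- the minors vanish
    have hmin : ∀ i j, deriv Φ₀ w i * Φ₀ w j - deriv Φ₀ w j * Φ₀ w i = 0 := by
      intro i j
      have h1 : Tendsto (fun n => deriv (Φ n) w i * Φ n w j - deriv (Φ n) w j * Φ n w i) l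
          (𝓝 (deriv Φ₀ w i * Φ₀ w j - deriv Φ₀ w j * Φ₀ w i)) := by
        have h2 : ∀ k, Tendsto (fun n => Φ n w k) l (𝓝 (Φ₀ w k)) := fun k => (tendsto_pi_nhds.1 hlw) k
        have h3 : ∀ k, Tendsto (fun n => deriv (Φ n) w k) l (𝓝 (deriv Φ₀ w k)) := fun k => (tendsto_pi_nhds.1 hdw) k
        exact ((h3 i).mul (h2 j)).sub ((h3 j).mul (h2 i))
      refine tendsto_nhds_unique h1 ?_
      rw [tendsto_zero_iff_norm_tendsto_zero]
      have h4 : Tendsto (fun n : ℕ => 2 * (C₀ * ‖Φ n w‖) * ‖Φ n w‖ * ((n : ℝ) + 1 - ‖w‖)⁻¹) l (𝓝 0) := by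
        have h5 : Tendsto (fun n : ℕ => 2 * (C₀ * ‖Φ n w‖) * ‖Φ n w‖) l (𝓝 (2 * (C₀ * ‖Φ₀ w‖) * ‖Φ₀ w‖)) :=
          ((tendsto_const_nhds.mul (tendsto_const_nhds.mul hlw.norm))).mul hlw.norm
        have h6 := h5.mul (tendsto_inv_atTop_zero.comp hR)
        rw [mul_zero] at h6
        exact h6
      refine squeeze_zero' (Eventually.of_forall fun n => norm_nonneg _) ?_ h4
      filter_upwards [hbd, hR.eventually_gt_atTop 0] with n hn hRn
      obtain ⟨a, ha⟩ := hn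
      set v := deriv (Φ n) w - a • Φ n w with hv
      have h5 : deriv (Φ n) w i * Φ n w j - deriv (Φ n) w j * Φ n w i = v i * Φ n w j - v j * Φ n w i := by
        rw [hv]
        simp only [Pi.sub_apply, Pi.smul_apply, smul_eq_mul]
        ring
      have h6 : ‖v‖ ≤ C₀ * ‖Φ n w‖ * ((n : ℝ) + 1 - ‖w‖)⁻¹ := by
        rw [← div_eq_mul_inv, le_div_iff₀ hRn]
        calc ‖v‖ * ((n : ℝ) + 1 - ‖w‖) = ((n : ℝ) + 1 - ‖w‖) * ‖v‖ := by ring
          _ ≤ C₀ * ‖Φ n w‖ := ha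
      rw [h5]
      calc ‖v i * Φ n w j - v j * Φ n w i‖ ≤ ‖v i‖ * ‖Φ n w j‖ + ‖v j‖ * ‖Φ n w i‖ := by
            refine (norm_sub_le _ _).trans ?_
            rw [norm_mul, norm_mul]
        _ ≤ ‖v‖ * ‖Φ n w‖ + ‖v‖ * ‖Φ n w‖ := by
            gcongr
            · exact norm_le_pi_norm v i
            · exact norm_le_pi_norm (Φ n w) j
            · exact norm_le_pi_norm v j
            · exact norm_le_pi_norm (Φ n w) i
        _ = 2 * ‖v‖ * ‖Φ n w‖ := by ring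
        _ ≤ 2 * (C₀ * ‖Φ n w‖ * ((n : ℝ) + 1 - ‖w‖)⁻¹) * ‖Φ n w‖ := by gcongr
        _ = 2 * (C₀ * ‖Φ n w‖) * ‖Φ n w‖ * ((n : ℝ) + 1 - ‖w‖)⁻¹ := by ring
    obtain ⟨j, hj⟩ : ∃ j, Φ₀ w j ≠ 0 := by
      by_contra hcon
      push Not at hcon
      exact hw0 (funext hcon)
    refine ⟨deriv Φ₀ w j / Φ₀ w j, ?_⟩
    funext i
    simp only [Pi.smul_apply, smul_eq_mul]
    rw [div_mul_eq_mul_div, eq_div_iff hj]
    linear_combination hmin i j
  have hloc : ∀ᶠ w in 𝓝 z₁, f w = f z₁ := by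
    filter_upwards [const_of_deriv (hΦ₀an z₁ hzs) hF0 key, isOpen_ball.mem_nhds hzs] with w h1 h2
    obtain ⟨c, hc, h3⟩ := h1
    obtain ⟨h4, h5⟩ := hfΦ w h2
    obtain ⟨h6, h7⟩ := hfΦ z₁ hzs
    rw [h5, h7, Projectivization.mk_eq_mk_iff']
    exact ⟨c, h3.symm⟩
  have hall := Pool.Agent.H36.BP.const_identity isPreconnected_univ hf.hol (Set.mem_univ z₁) hloc
  exact (hall u (Set.mem_univ u)).trans (hall w (Set.mem_univ w)).symm

/-- Hyperbolicity modulo the zeros of `Q` implies that the metric is bounded below at the points where `Q` does not vanish. -/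
theorem royden_of_kobayashi {U : Set (PN N)} {Q : MvPolynomial (Fin (N + 1)) ℂ} {D : ℕ}
    (h : KobayashiHyperbolicModulo U Q D) {x : PN N} (hx : ¬ VanishesAt Q x) : RoydenPos U x := by
  obtain ⟨M, C, hk⟩ := h
  have hQc : Continuous fun x : Fin (N + 1) → ℂ => eval x Q := MvPolynomial.continuous_eval Q
  have hx0 : eval x.rep Q ≠ 0 := hx
  set t : (Fin (N + 1) → ℂ) → ℝ := fun x => (‖eval x Q‖ / ‖x‖ ^ D) ^ M with ht
  have htc : ContinuousAt t x.rep :=
    ((hQc.norm.continuousAt).div (continuous_norm.pow D).continuousAt (pow_ne_zero D (norm_ne_zero_iff.2 x.rep_nonzero))).pow M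
  have ht0 : 0 < t x.rep := pow_pos (div_pos (norm_pos_iff.2 hx0) (pow_pos (norm_pos_iff.2 x.rep_nonzero) D)) M
  refine ⟨|C| / (t x.rep / 2), ?_⟩
  filter_upwards [htc.eventually_const_lt (show t x.rep / 2 < t x.rep by linarith)] with v hv f F hf hfU hF hFf hF0
  obtain ⟨a, ha⟩ := hk f F hf hfU hF hFf
  refine ⟨a, ?_⟩
  have h1 : t x.rep / 2 < (‖eval (F 0) Q‖ / ‖F 0‖ ^ D) ^ M := by rw [hF0]; exact hv
  have h2 : t x.rep / 2 * ‖deriv F 0 - a • F 0‖ ≤ |C| * ‖F 0‖ := by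
    calc t x.rep / 2 * ‖deriv F 0 - a • F 0‖ ≤ (‖eval (F 0) Q‖ / ‖F 0‖ ^ D) ^ M * ‖deriv F 0 - a • F 0‖ := by gcongr
      _ ≤ C * ‖F 0‖ := ha
      _ ≤ |C| * ‖F 0‖ := by gcongr; exact le_abs_self C
  rw [div_mul_eq_mul_div, le_div_iff₀ (by linarith)]
  calc ‖deriv F 0 - a • F 0‖ * (t x.rep / 2) = t x.rep / 2 * ‖deriv F 0 - a • F 0‖ := by ring
    _ ≤ |C| * ‖F 0‖ := h2

/-- `U` is Kobayashi hyperbolic modulo `Ξ`: the Kobayashi-Royden metric is bounded below near every point of `U ∖ Ξ`. -/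
def RoydenModulo (U Ξ : Set (PN N)) : Prop := ∀ x ∈ U, x ∉ Ξ → RoydenPos U x

/-- The limits of discs in a space which is Kobayashi hyperbolic modulo the closed set `Ξ` lie in `Ξ`. -/
theorem limit_of_royden {U Ξ : Set (PN N)} (hΞ : ZariskiClosedIn U Ξ) (h : RoydenModulo U Ξ) {l : Filter ℕ} {F : ℕ → ℂ → PN N} {f : ℂ → PN N}
    (hf : IsLimitPN U l F f) (hne : ∃ z w, f z ≠ f w) {z : ℂ} (hz : f z ∈ U) : f z ∈ Ξ := by
  by_contra hcon
  obtain ⟨S, hS, rfl⟩ := hΞ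
  obtain ⟨Q, hQS, hQz⟩ : ∃ Q ∈ S, ¬ VanishesAt Q (f z) := by
    by_contra hcon2
    push Not at hcon2
    exact hcon ⟨hz, hcon2⟩
  obtain ⟨d, hQ⟩ := hS Q hQS
  obtain ⟨z₁, hz₁, hQz₁⟩ : ∃ z₁, ConvPN l F f z₁ ∧ ¬ VanishesAt Q (f z₁) := by
    obtain ⟨φ, hφ, he⟩ := hf.hol z (Set.mem_univ z)
    have h1 : ∀ᶠ w in 𝓝 z, ¬ VanishesAt Q (f w) := by
      have h2 : eval (φ z) Q ≠ 0 := by
        obtain ⟨h1, h2⟩ := he.self_of_nhds
        intro h3
        apply hQz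
        rw [h2]
        exact (vanishesAt_mk hQ h1).2 h3
      have h3 : AnalyticAt ℂ (fun w => eval (φ w) Q) z := by
        have := AnalyticAt.aeval_mvPolynomial (𝕜 := ℂ) (fun i => (analyticAt_pi_iff.1 hφ) i) Q
        simpa [MvPolynomial.aeval_eq_eval] using this
      filter_upwards [he, h3.continuousAt.eventually_ne h2] with w hw1 hw2
      obtain ⟨h4, h5⟩ := hw1
      rw [h5, vanishesAt_mk hQ h4]
      exact hw2
    exact ((hf.conv z).and (h1.filter_mono nhdsWithin_le_nhds)).exists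
  obtain ⟨u, w, huw⟩ := hne
  refine huw (limit_const_of_royden hf hz₁ (h _ (hf.mem_of_conv z₁ hz₁) fun h2 => hQz₁ (h2.2 Q hQS)) u w)

/-- The limits of discs in a space which is Kobayashi hyperbolic modulo the zeros of `Q` lie in the zeros of `Q`. -/
theorem limit_of_kobayashi {U : Set (PN N)} {Q : MvPolynomial (Fin (N + 1)) ℂ} {D : ℕ}
    (hQ : Q.IsHomogeneous D) (h : KobayashiHyperbolicModulo U Q D) {l : Filter ℕ} {F : ℕ → ℂ → PN N} {f : ℂ → PN N}
    (hf : IsLimitPN U l F f) (hne : ∃ z w, f z ≠ f w) (z : ℂ) : VanishesAt Q (f z) := by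
  by_contra hz
  obtain ⟨z₁, hz₁, hQz₁⟩ : ∃ z₁, ConvPN l F f z₁ ∧ ¬ VanishesAt Q (f z₁) := by
    obtain ⟨φ, hφ, he⟩ := hf.hol z (Set.mem_univ z)
    have h1 : ∀ᶠ w in 𝓝 z, ¬ VanishesAt Q (f w) := by
      have h2 : eval (φ z) Q ≠ 0 := by
        obtain ⟨h1, h2⟩ := he.self_of_nhds
        intro h3
        apply hz
        rw [h2]
        exact (vanishesAt_mk hQ h1).2 h3
      have h3 : AnalyticAt ℂ (fun w => eval (φ w) Q) z := by
        have := AnalyticAt.aeval_mvPolynomial (𝕜 := ℂ) (fun i => (analyticAt_pi_iff.1 hφ) i) Q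
        simpa [MvPolynomial.aeval_eq_eval] using this
      filter_upwards [he, h3.continuousAt.eventually_ne h2] with w hw1 hw2
      obtain ⟨h4, h5⟩ := hw1
      rw [h5, vanishesAt_mk hQ h4]
      exact hw2
    exact ((hf.conv z).and (h1.filter_mono nhdsWithin_le_nhds)).exists
  obtain ⟨u, w, huw⟩ := hne
  exact huw (limit_const_of_royden hf hz₁ (royden_of_kobayashi h hQz₁) u w)

/-- Kobayashi hyperbolicity modulo a proper closed subset implies that the limits lie in a proper closed subset. -/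
theorem limModPN_of_kobayashi {U : Set (PN N)} (h : PseudoKobayashiHyperbolic U) :
    ∃ Ξ : Set (PN N), ZariskiClosedIn U Ξ ∧ Ξ ≠ U ∧ LimModPN U Ξ := by
  obtain ⟨Q, D, hQ, ⟨x, hx, hxQ⟩, hk⟩ := h
  refine ⟨{x | x ∈ U ∧ ∀ P ∈ ({Q} : Set (MvPolynomial (Fin (N + 1)) ℂ)), VanishesAt P x},
    ⟨{Q}, fun P hP => ⟨D, by rw [Set.mem_singleton_iff.1 hP]; exact hQ⟩, rfl⟩, ?_, ?_⟩
  · intro h1
    rw [← h1] at hx
    exact hxQ (hx.2 Q rfl)
  · intro l F f hf _ hne z hz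
    refine ⟨hz, fun P hP => ?_⟩
    rw [Set.mem_singleton_iff.1 hP]
    exact limit_of_kobayashi hQ hk hf hne z

end Pool.Agent.H36.LB
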