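import Pool.Agent.H36.LB.Cv
import Pool.Agent.H36.BPL.BlowK

/-!
# LB BlowL: limit curves in the blow-up
-/

set_option autoImplicit false

namespace Pool.Agent.H36.LB

open Filter Topology Metric
open Pool.Agent.H17BP (Surface Pr HolP)
open Pool.Agent.H36.BP (OrdTwo)
open Pool.Agent.H36.BPL (comp_mem mem_totalK ordTwo_comp)
open Pool.Agent.H62.BU (blow total Ker phi om)

variable {V : Type} [NormedAddCommGroup V] [NormedSpace ℂ V] {ι : Type} [Fintype ι] {l : ι → V →L[ℂ] ℂ} {X K T : Set V} {q : V}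

theorem pr_comp {y : ι → V} (hy : y ∈ blow l X) {b b' : ι} (hb : y b ≠ 0) (hb' : y b' ≠ 0) : Pr (y b) (y b') := by
  obtain ⟨c, e⟩ := Pool.Agent.H62.BU.comp_smul y hy hb' b
  refine ⟨c, ?_, e⟩
  rintro rfl
  rw [zero_smul] at e
  exact hb e

theorem holP_comp {h : ℂ → ι → V} {z₀ : ℂ} (hh : HolP h z₀) {b : ℂ → ι} (hmem : ∀ᶠ z in 𝓝 z₀, h z ∈ blow l X ∧ h z (b z) ≠ 0) :
    HolP (fun z => h z (b z)) z₀ := by
  obtain ⟨H, hHan, hH0, hHe⟩ := hh
  obtain ⟨b₀, hb₀⟩ := Function.ne_iff.1 hH0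
  have hb₀' : H z₀ b₀ ≠ 0 := hb₀
  have han : AnalyticAt ℂ (fun z => H z b₀) z₀ := (analyticAt_pi_iff.1 hHan) b₀
  refine ⟨fun z => H z b₀, han, hb₀', ?_⟩
  filter_upwards [hHe, han.continuousAt.eventually_ne hb₀', hmem] with z hz hz0 hz1
  obtain ⟨c, hc, e⟩ := hz
  have e1 : h z b₀ = c • H z b₀ := congrFun e b₀
  have h1 : h z b₀ ≠ 0 := by
    rw [e1]
    exact smul_ne_zero hc hz0
  exact (pr_comp hz1.1 hz1.2 h1).trans ⟨c, hc, e1⟩

theorem convP_comp {k : Filter ℕ} (hk : k ≤ atTop) {F : ℕ → ℂ → ι → V} {f : ℂ → ι → V} {z₀ : ℂ} (h : ConvP k F f z₀)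
    {bn : ℕ → ℂ → ι} {b : ℂ → ι}
    (hF : ∀ n : ℕ, ∀ z ∈ ball (0 : ℂ) (n + 1), F n z ∈ blow l X ∧ F n z (bn n z) ≠ 0) (hf : ∀ z, f z ∈ blow l X ∧ f z (b z) ≠ 0) :
    ConvP k (fun n z => F n z (bn n z)) (fun z => f z (b z)) z₀ := by
  have h0 : (ContinuousLinearMap.proj (R := ℂ) (φ := fun _ : ι => V) (b z₀)) (f z₀) ≠ 0 := (hf z₀).2
  refine h.map (p := (ContinuousLinearMap.proj (R := ℂ) (φ := fun _ : ι => V) (b z₀))) (d := 1)
    (fun x => (ContinuousLinearMap.proj (R := ℂ) (φ := fun _ : ι => V) (b z₀)).analyticAt x) (fun c x => by rw [pow_one, map_smul]) h0 ?_ ?_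
  · exact Eventually.of_forall fun z hz => pr_comp (hf z).1 (hf z).2 hz
  · refine ⟨1, one_pos, ?_⟩
    obtain ⟨n₀, hn₀⟩ := exists_nat_ge ‖z₀‖
    filter_upwards [hk (eventually_ge_atTop n₀)] with n hn z hz hz0
    have h1 : z ∈ ball (0 : ℂ) (n + 1) := by
      rw [mem_ball_zero_iff]
      have h2 : ‖z - z₀‖ < 1 := by simpa [dist_eq_norm] using hz
      have h3 : ‖z‖ ≤ ‖z - z₀‖ + ‖z₀‖ := by
        have := norm_add_le (z - z₀) z₀
        rwa [sub_add_cancel] at this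
      have h4 : (n₀ : ℝ) ≤ n := by exact_mod_cast hn
      linarith
    exact pr_comp (hF n z h1).1 (hF n z h1).2 hz0

/-- the image of a limit curve in the blow-up -/
theorem limCurve_comp (hX : Surface X) {k : Filter ℕ} {F : ℕ → ℂ → ι → V} {f : ℂ → ι → V}
    (h : LimCurve (blow l X) (total l X K) k F f) {bn : ℕ → ℂ → ι} {b : ℂ → ι}
    (hF : ∀ n : ℕ, ∀ z ∈ ball (0 : ℂ) (n + 1), F n z (bn n z) ≠ 0) (hf : ∀ z, f z (b z) ≠ 0) :
    LimCurve X K k (fun n z => F n z (bn n z)) (fun z => f z (b z)) where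
  neBot := h.neBot
  le_atTop := h.le_atTop
  hol z := holP_comp (h.hol z) (Eventually.of_forall fun w => ⟨h.mem w, hf w⟩)
  mem z := comp_mem hX (h.mem z) (hf z)
  zero_mem := h.zero_mem.2 _ (hf 0)
  holF n z hz := holP_comp (h.holF n z hz) (by
    filter_upwards [isOpen_ball.mem_nhds hz] with w hw
    exact ⟨(h.memF n w hw).1, hF n w hw⟩)
  memF n z hz := (h.memF n z hz).2 _ (hF n z hz)
  zero := convP_comp h.le_atTop h.zero (fun n z hz => ⟨(h.memF n z hz).1, hF n z hz⟩) fun z => ⟨h.mem z, hf z⟩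
  conv z₀ := (h.conv z₀).mono fun z hz => convP_comp h.le_atTop hz (fun n z hz => ⟨(h.memF n z hz).1, hF n z hz⟩) fun z => ⟨h.mem z, hf z⟩

/-- limit curves in the blow-up -/
theorem lim_blow (hX : Surface X) (hl : Ker l q)
    (hT : ∀ x ∈ T, ∀ c : ℂ, c ≠ 0 → c • x ∈ T) (hq : q ∈ T) (hb : Lim2 X K T) : Lim2 (blow l X) (total l X K) (total l X T) := by
  have hX' : Pool.Agent.H62.BU.Surface X := Pool.Agent.H17BP.surface_iff.2 hX
  intro k F h hh hord hex z w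
  obtain ⟨z₁, hz₁⟩ := hex
  have hmem := hh.mem
  choose b hbne using fun z => Pool.Agent.H62.BU.exists_ne (h z) (hmem z)
  have hι : ∀ n : ℕ, ∀ z : ℂ, ∃ b' : ι, z ∈ ball (0 : ℂ) (n + 1) → F n z b' ≠ 0 := by
    intro n z
    by_cases hz : z ∈ ball (0 : ℂ) (n + 1)
    · obtain ⟨b', hb'⟩ := Pool.Agent.H62.BU.exists_ne (F n z) (hh.memF n z hz).1
      exact ⟨b', fun _ => hb'⟩
    · exact ⟨b 0, fun h1 => absurd h1 hz⟩
  choose bn hbn using hι
  have hlim := limCurve_comp hX hh hbn hbne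
  have hfB : ∀ z, h z ∈ total l X T ↔ h z (b z) ∈ T := fun z =>
    Pool.Agent.H62.BU.mem_total_iff hX' hT (h z) (hmem z) (hbne z)
  have hall := hb k _ _ hlim (ordTwo_comp hmem hbne hord) ⟨z₁, fun hmemB => hz₁ ((hfB z₁).2 hmemB)⟩
  have hl' : ∀ z, ∃ b', l b' (h z (b z)) ≠ 0 := by
    intro z
    by_contra hcon
    push Not at hcon
    obtain ⟨c, e⟩ := (hl (h z (b z))).1 hcon
    have hc : c ≠ 0 := by
      intro h0
      rw [h0, zero_smul] at e
      exact hbne z e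
    have h1 : h z (b z) ∈ T := by
      rw [e]
      exact hT q hq c hc
    obtain ⟨d, hd, e'⟩ := hall z₁ z
    apply hz₁
    rw [hfB z₁]
    have e'' : h z₁ (b z₁) = d • h z (b z) := e'
    rw [e'']
    exact hT _ h1 d hd
  have hphi : ∀ z, Pr (h z) (phi l (h z (b z))) := by
    intro z
    obtain ⟨b', hb'⟩ := hl' z
    exact ⟨(l (b z) (h z (b z)))⁻¹, inv_ne_zero (Pool.Agent.H62.BU.ne_of_ne (h z) (hmem z) (hbne z) hb'),
      Pool.Agent.H62.BU.eq_phi (h z) (hmem z) (hbne z) hb'⟩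
  have hpp : Pr (phi l (h z (b z))) (phi l (h w (b w))) := by
    obtain ⟨c, hc, e⟩ := hall z w
    have e' : h z (b z) = c • h w (b w) := e
    refine ⟨c ^ 2, pow_ne_zero 2 hc, ?_⟩
    rw [e', Pool.Agent.H62.BU.phi_smul]
  exact ((hphi z).trans hpp).trans (hphi w).symm

end Pool.Agent.H36.LB
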