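import Pool.Agent.H17BP.Conv
import Pool.Agent.H36.BPL.Brody2

/-!
# LB Cv: convergence of holomorphic maps into projective spaces, limit curves

Holomorphic maps into `ℙ(V)` are given by functions with values in `V ∖ {0}`, see `HolP`.
-/

set_option autoImplicit false

open Topology Filter Metric

namespace Pool.Agent.H36.LB

open Pool.Agent.H17BP (Pr HolP)
open Pool.Agent.H36.BP (OrdTwo)

variable {V W : Type} [NormedAddCommGroup V] [NormedSpace ℂ V] [NormedAddCommGroup W] [NormedSpace ℂ W]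

/-- Near `z₀` the maps `[F n]` into `ℙ(V)` converge to the map `[f]`, uniformly on a disc around `z₀`. -/
def ConvP (l : Filter ℕ) (F : ℕ → ℂ → V) (f : ℂ → V) (z₀ : ℂ) : Prop :=
  ∃ (s : ℝ) (Φ : ℕ → ℂ → V) (Φ₀ : ℂ → V), 0 < s ∧
    (∀ᶠ n in l, DifferentiableOn ℂ (Φ n) (ball z₀ s) ∧ ∀ z ∈ ball z₀ s, Pr (F n z) (Φ n z)) ∧
    DifferentiableOn ℂ Φ₀ (ball z₀ s) ∧ (∀ z ∈ ball z₀ s, Φ₀ z ≠ 0 ∧ Pr (f z) (Φ₀ z)) ∧
    TendstoLocallyUniformlyOn Φ Φ₀ l (ball z₀ s)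

/-- The holomorphic map `[f]` from `ℂ` to `X` is the limit of the holomorphic maps `[F n]` from discs to `K`, whose radii tend to infinity,
near `0` and outside a closed discrete set. -/
structure LimCurve (X K : Set V) (l : Filter ℕ) (F : ℕ → ℂ → V) (f : ℂ → V) : Prop where
  neBot : l.NeBot
  le_atTop : l ≤ atTop
  hol : ∀ z, HolP f z
  mem : ∀ z, f z ∈ X
  zero_mem : f 0 ∈ K
  holF : ∀ n : ℕ, ∀ z ∈ ball (0 : ℂ) (n + 1), HolP (F n) z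
  memF : ∀ n : ℕ, ∀ z ∈ ball (0 : ℂ) (n + 1), F n z ∈ K
  zero : ConvP l F f 0
  conv : ∀ z₀ : ℂ, ∀ᶠ z in 𝓝[≠] z₀, ConvP l F f z

/-- Every limit of order at most two of discs in `K` which is not a map into `T` is constant. -/
def Lim2 (X K T : Set V) : Prop :=
  ∀ (l : Filter ℕ) (F : ℕ → ℂ → V) (f : ℂ → V), LimCurve X K l F f → OrdTwo f → (∃ z, f z ∉ T) → ∀ z w, Pr (f z) (f w)

/-- Composition with a map which is continuous at the values of the limit. -/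
theorem tlu_comp {V W : Type} [NormedAddCommGroup V] [NormedAddCommGroup W] {l : Filter ℕ} {Φ : ℕ → ℂ → V} {Φ₀ : ℂ → V}
    {U : Set ℂ} (h : TendstoLocallyUniformlyOn Φ Φ₀ l U)
    (hc : ContinuousOn Φ₀ U) {p : V → W} (hp : ∀ x ∈ U, ContinuousAt p (Φ₀ x)) :
    TendstoLocallyUniformlyOn (fun n z => p (Φ n z)) (fun z => p (Φ₀ z)) l U := by
  rw [tendstoLocallyUniformlyOn_iff_forall_tendsto] at h ⊢
  intro x hx
  have h1 := h x hx
  have h2 : Tendsto (fun y : ℕ × ℂ => Φ₀ y.2) (l ×ˢ 𝓝[U] x) (𝓝 (Φ₀ x)) := (hc x hx).tendsto.comp tendsto_snd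
  have h3 : Tendsto (fun y : ℕ × ℂ => Φ y.1 y.2) (l ×ˢ 𝓝[U] x) (𝓝 (Φ₀ x)) := by
    rw [Metric.tendsto_nhds] at h2 ⊢
    intro ε hε
    have h4 := h1 (Metric.dist_mem_uniformity (show (0 : ℝ) < ε / 2 by positivity))
    filter_upwards [h2 (ε / 2) (by positivity), h4] with y hy1 hy2
    have hy2 : dist (Φ₀ y.2) (Φ y.1 y.2) < ε / 2 := hy2
    calc dist (Φ y.1 y.2) (Φ₀ x) ≤ dist (Φ y.1 y.2) (Φ₀ y.2) + dist (Φ₀ y.2) (Φ₀ x) := dist_triangle _ _ _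
      _ < ε := by rw [dist_comm (Φ y.1 y.2)]; linarith
  have h4 : Tendsto (fun y : ℕ × ℂ => (p (Φ₀ y.2), p (Φ y.1 y.2))) (l ×ˢ 𝓝[U] x) (𝓝 (p (Φ₀ x), p (Φ₀ x))) :=
    ((hp x hx).tendsto.comp h2).prodMk_nhds ((hp x hx).tendsto.comp h3)
  exact h4.mono_right (nhds_le_uniformity _)

/-- Convergence of the values, uniformly on a smaller disc. -/
theorem ConvP.map {l : Filter ℕ} {F : ℕ → ℂ → V} {f : ℂ → V} {z₀ : ℂ} (h : ConvP l F f z₀) {p : V → W} {d : ℕ}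
    (hp : ∀ x, AnalyticAt ℂ p x) (hps : ∀ (c : ℂ) (x : V), p (c • x) = c ^ d • p x) (h0 : p (f z₀) ≠ 0)
    {F' : ℕ → ℂ → W} {f' : ℂ → W}
    (hf' : ∀ᶠ z in 𝓝 z₀, p (f z) ≠ 0 → Pr (f' z) (p (f z))) (hF'' : ∃ s > 0, ∀ᶠ n in l, ∀ w ∈ ball z₀ s, p (F n w) ≠ 0 → Pr (F' n w) (p (F n w))) :
    ConvP l F' f' z₀ := by
  obtain ⟨s, Φ, Φ₀, hs, hΦ, hΦ₀, hf, hlim⟩ := h
  obtain ⟨s₁, hs₁, hF1⟩ := hF''
  have hmem : z₀ ∈ ball z₀ s := mem_ball_self hs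
  have hpr0 := (hf z₀ hmem).2
  have hpΦ0 : p (Φ₀ z₀) ≠ 0 := by
    obtain ⟨c, hc, e⟩ := hpr0
    intro h1
    apply h0
    rw [e, hps, h1, smul_zero]
  have hcont : ContinuousOn Φ₀ (ball z₀ s) := hΦ₀.continuousOn
  have hpc : ContinuousAt (fun z => p (Φ₀ z)) z₀ :=
    ContinuousAt.comp (g := p) (hp _).continuousAt (hcont.continuousAt (isOpen_ball.mem_nhds hmem))
  -- a smaller disc
  have hev : ∀ᶠ z in 𝓝 z₀, ‖p (Φ₀ z₀)‖ / 2 < ‖p (Φ₀ z)‖ ∧ (p (f z) ≠ 0 → Pr (f' z) (p (f z))) ∧ z ∈ ball z₀ s ∧ z ∈ ball z₀ s₁ := by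
    have h1 : 0 < ‖p (Φ₀ z₀)‖ := norm_pos_iff.mpr hpΦ0
    filter_upwards [hpc.norm.eventually_const_lt (show ‖p (Φ₀ z₀)‖ / 2 < ‖p (Φ₀ z₀)‖ by linarith), hf', isOpen_ball.mem_nhds hmem,
      ball_mem_nhds z₀ hs₁] with z h2 h3 h4 h5
    exact ⟨h2, h3, h4, h5⟩
  obtain ⟨r, hr, hrb⟩ := Metric.eventually_nhds_iff_ball.1 hev
  have hsub : closedBall z₀ (r / 2) ⊆ ball z₀ r := closedBall_subset_ball (by linarith)
  have hsub2 : ball z₀ (r / 2) ⊆ ball z₀ r := ball_subset_closedBall.trans hsub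
  have hlim2 : TendstoLocallyUniformlyOn (fun n z => p (Φ n z)) (fun z => p (Φ₀ z)) l (ball z₀ s) :=
    tlu_comp hlim hcont fun x _ => (hp _).continuousAt
  have hne0 : 0 < ‖p (Φ₀ z₀)‖ / 2 := by
    have := norm_pos_iff.mpr hpΦ0
    positivity
  have hunif : ∀ᶠ n in l, ∀ z ∈ closedBall z₀ (r / 2), dist (p (Φ₀ z)) (p (Φ n z)) < ‖p (Φ₀ z₀)‖ / 2 := by
    have h1 := (tendstoLocallyUniformlyOn_iff_tendstoUniformlyOn_of_compact (isCompact_closedBall z₀ (r / 2))).1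
      (hlim2.mono fun z hz => (hrb z (hsub hz)).2.2.1)
    exact Metric.tendstoUniformlyOn_iff.1 h1 _ hne0
  refine ⟨r / 2, fun n z => p (Φ n z), fun z => p (Φ₀ z), by positivity, ?_, ?_, ?_, hlim2.mono fun z hz => (hrb z (hsub2 hz)).2.2.1⟩
  · filter_upwards [hΦ, hF1, hunif] with n h1 h2 h3
    refine ⟨fun z hz => ?_, fun z hz => ?_⟩
    · have h4 : DifferentiableAt ℂ (Φ n) z := h1.1.differentiableAt (isOpen_ball.mem_nhds (hrb z (hsub2 hz)).2.2.1)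
      exact (DifferentiableAt.comp (g := p) z (hp _).differentiableAt h4).differentiableWithinAt
    · have hzs := (hrb z (hsub2 hz)).2.2.1
      obtain ⟨c, hc, e⟩ := h1.2 z hzs
      have h5 : p (Φ n z) ≠ 0 := by
        intro h6
        have h7 := h3 z (ball_subset_closedBall hz)
        rw [h6, dist_zero_right] at h7
        linarith [(hrb z (hsub2 hz)).1]
      have h6 : p (F n z) = c ^ d • p (Φ n z) := by rw [e, hps]
      have h7 : p (F n z) ≠ 0 := by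
        rw [h6]
        exact smul_ne_zero (pow_ne_zero d hc) h5
      exact (h2 z (hrb z (hsub2 hz)).2.2.2 h7).trans ⟨c ^ d, pow_ne_zero d hc, h6⟩
  · intro z hz
    have h4 : DifferentiableAt ℂ Φ₀ z := hΦ₀.differentiableAt (isOpen_ball.mem_nhds (hrb z (hsub2 hz)).2.2.1)
    exact (DifferentiableAt.comp (g := p) z (hp _).differentiableAt h4).differentiableWithinAt
  · intro z hz
    obtain ⟨h1, h2, h3, h4⟩ := hrb z (hsub2 hz)
    have h5 : p (Φ₀ z) ≠ 0 := by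
      intro h6
      rw [h6, norm_zero] at h1
      linarith
    obtain ⟨c, hc, e⟩ := (hf z h3).2
    have h6 : p (f z) = c ^ d • p (Φ₀ z) := by rw [e, hps]
    have h7 : p (f z) ≠ 0 := by
      rw [h6]
      exact smul_ne_zero (pow_ne_zero d hc) h5
    exact ⟨h5, (h2 h7).trans ⟨c ^ d, pow_ne_zero d hc, h6⟩⟩

end Pool.Agent.H36.LB
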