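import Pool.Agent.H36.LB.NodalL
import Pool.Agent.H36.BPL.IndK
import Pool.Agent.H14.KB.KobK

/-!
# LB Ind: the induction over the blow-ups
-/

set_option autoImplicit false

open Topology Filter

noncomputable section

namespace Pool.Agent.H36.LB

open Pool.Agent.H62.BU (blow total Ker phi om phi_smul)
open Pool.Agent.H17BP (Surface IsChart IsForm NoZeros NodalAt Pr HolP Picard Eqs ResAt eqs_blow thin_blow resAt_blow exists_forms
  exists_finset_of_isolated exists_resAt)
open Pool.Agent.H36.BPL (openPart_blow comp_mem mem_totalK picardK_blow phi_pr)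
open Pool.Agent.H14.KB (Kob kobK_blow)

/-- The blow-up of a model at a point of the curve is a model. -/
theorem modelL_blow {V : Type} [NormedAddCommGroup V] [NormedSpace ℂ V] [FiniteDimensional ℂ V] {ι : Type} [Fintype ι] {l : ι → V →L[ℂ] ℂ}
    {X K T : Set V} {q : V} {m j : ℕ} {Ω : V → V → V → ℂ} {κ : Type} {Q : κ → V → ℂ} {D : ℕ} (h : ModelL X K T m j Ω Q D) (hl : Ker l q) (hq : q ∈ T) :
    ModelL (blow l X) (total l X K) (total l X T) (2 * m) j (om l j Ω) (fun (p : κ × ι) (y : ι → V) => Q p.1 (y p.2)) D where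
  surf := Pool.Agent.H17BP.surface_iff.1 (Pool.Agent.H62.BU.surface_blow (Pool.Agent.H17BP.surface_iff.2 h.surf) hl (h.eqs.sub hq))
  opn := openPart_blow h.surf h.opn
  sub y hy hyK := by
    refine ⟨hy, fun b hb => ?_⟩
    have h1 : y b ∉ K := fun h2 => hyK ((mem_totalK h.surf h.opn.smul hy hb).mpr h2)
    exact h.sub _ (comp_mem h.surf hy hb) h1
  one_m := by have := h.one_m; omega
  one_j := h.one_j
  form := Pool.Agent.H62.BU.formK h.opn h.form
  noZeros := Pool.Agent.H62.BU.noZerosK h.surf h.opn h.form (h.eqs.cone h.surf.smul) hl hq h.noZeros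
  pole := (Pool.Agent.H62.BU.poleLE_om h.surf h.opn h.form h.pole).mono (by have := h.one_m; omega)
  eqs := eqs_blow h.surf h.eqs
  thin := fun σ τ h' => thin_blow h.surf h.eqs h.thin hl hq h'
  lim := lim_blow h.surf hl (h.eqs.cone h.surf.smul) hq h.lim

/-- The extension and boundedness theorem for models which are resolved by `n` blow-ups over every point. -/
def PicKobN (n : ℕ) : Prop :=
  ∀ (V : Type) [NormedAddCommGroup V] [NormedSpace ℂ V] [FiniteDimensional ℂ V] (X K T : Set V) (m j : ℕ)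
    (Ω : V → V → V → ℂ) (κ : Type) [Fintype κ] (Q : κ → V → ℂ) (D : ℕ), ModelL X K T m j Ω Q D →
    (∀ x ∈ X, ResAt X T x n) → Picard K T ∧ Kob K Q D

theorem picKobN_zero : PicKobN 0 := by
  intro V _ _ _ X K T m j Ω κ _ Q D h h0
  exact nodalL h fun x hx => (h0 x hx).nodal

theorem picKobN_step {n : ℕ} (ih : PicKobN n) : ∀ (k : ℕ) (V : Type) [NormedAddCommGroup V] [NormedSpace ℂ V]
    [FiniteDimensional ℂ V] (X K T : Set V) (m j : ℕ) (Ω : V → V → V → ℂ) (κ : Type) [Fintype κ]
    (Q : κ → V → ℂ) (D : ℕ), ModelL X K T m j Ω Q D → (∀ x ∈ X, ResAt X T x (n + 1)) →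
    (∃ F : Finset V, F.card ≤ k ∧ ∀ x ∈ X, ResAt X T x n ∨ ∃ q ∈ F, Pr x q) → Picard K T ∧ Kob K Q D := by
  intro k
  induction k with
  | zero =>
    intro V _ _ _ X K T m j Ω κ _ Q D h h0 hF
    obtain ⟨F, hF1, hF2⟩ := hF
    have hF0 : F = ∅ := Finset.card_eq_zero.1 (by omega)
    refine ih V X K T m j Ω κ Q D h fun x hx => ?_
    rcases hF2 x hx with h1 | ⟨q, hq, -⟩
    · exact h1
    · rw [hF0] at hq
      simp at hq
  | succ k ihk =>
    intro V _ _ _ X K T m j Ω κ _ Q D h h0 hF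
    obtain ⟨F, hF1, hF2⟩ := hF
    have hX := h.surf.smul
    have hB := h.eqs.cone h.surf.smul
    by_cases hall : ∀ x ∈ X, ResAt X T x n
    · exact ih V X K T m j Ω κ Q D h hall
    push Not at hall
    obtain ⟨x₀, hx₀, hx₀n⟩ := hall
    rcases hF2 x₀ hx₀ with h1 | ⟨q, hqF, hxq⟩
    · exact absurd h1 hx₀n
    have hqX : q ∈ X := (hxq.mem_iff hX).1 hx₀
    have hqn : ¬ ResAt X T q n := fun h1 => hx₀n (h1.pr hX hB hxq)
    have hq0 : ¬ ResAt X T q 0 := fun h1 => hqn (h1.mono_le (Nat.zero_le n))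
    have hqB : q ∈ T := by
      by_contra hqB
      exact hq0 (ResAt.of_notMem h.surf h.eqs hqX hqB)
    have hqne : q ≠ 0 := fun e => h.surf.zero (e ▸ hqX)
    obtain ⟨r, l, hl⟩ := exists_forms hqne
    classical
    refine And.imp (picardK_blow h.surf hl h.opn.sub h.opn.smul h.eqs.sub hB hqB)
      (kobK_blow h.surf hl h.eqs h.opn.sub h.opn.smul hqB) ?_
    refine ihk (Fin r → V) (blow l X) (total l X K) (total l X T) (2 * m) j (om l j Ω) (κ × Fin r) _ D
      (modelL_blow h hl hqB) ?_ ⟨(F.erase q).image (phi l), ?_, ?_⟩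
    · intro y hy
      rcases resAt_blow h.surf h.eqs hl hqB (h0 q hqX) hq0 hy with h1 | ⟨x, hx, -, -, h2⟩
      · exact h1.mono_le (Nat.le_succ n)
      · exact h2 _ (h0 x hx)
    · have h1 := Finset.card_image_le (s := F.erase q) (f := phi l)
      have h2 := Finset.card_erase_of_mem hqF
      omega
    · intro y hy
      rcases resAt_blow h.surf h.eqs hl hqB (h0 q hqX) hq0 hy with h1 | ⟨x, hx, hxq', hyx, h2⟩
      · exact Or.inl h1
      · rcases hF2 x hx with h3 | ⟨q', hq'F, hxq''⟩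
        · exact Or.inl (h2 _ h3)
        · refine Or.inr ⟨phi l q', Finset.mem_image_of_mem _ (Finset.mem_erase.2 ⟨?_, hq'F⟩),
            hyx.trans (phi_pr hxq'')⟩
          rintro rfl
          exact hxq' hxq''

/-- At all but finitely many points the curve is a monomial in local coordinates. -/
theorem ModelL.exists_finset {V : Type} [NormedAddCommGroup V] [NormedSpace ℂ V] [FiniteDimensional ℂ V]
    {X K T : Set V} {m j : ℕ} {Ω : V → V → V → ℂ} {κ : Type} {Q : κ → V → ℂ} {D : ℕ}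
    (h : ModelL X K T m j Ω Q D) :
    ∃ F : Finset V, (∀ q ∈ F, q ∈ X) ∧ ∀ x ∈ X, ResAt X T x 0 ∨ ∃ q ∈ F, Pr x q := by
  have hX := h.surf.smul
  have hB := h.eqs.cone h.surf.smul
  refine exists_finset_of_isolated h.surf (fun x y hxy hy => hy.pr hX hB hxy) fun x hx => ?_
  obtain ⟨n, hn⟩ := exists_resAt h.surf h.eqs h.thin hx
  exact hn.near hX hB

theorem picKobN (n : ℕ) : PicKobN n := by
  induction n with
  | zero => exact picKobN_zero
  | succ n ih =>
    intro V _ _ _ X K T m j Ω κ _ Q D h h0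
    obtain ⟨F, -, hF⟩ := h.exists_finset
    refine picKobN_step ih F.card V X K T m j Ω κ Q D h h0 ⟨F, le_rfl, fun x hx => ?_⟩
    rcases hF x hx with h1 | h1
    · exact Or.inl (h1.mono_le (Nat.zero_le n))
    · exact Or.inr h1

/-- **The extension and boundedness theorem.** -/
theorem picKob_of_modelL {V : Type} [NormedAddCommGroup V] [NormedSpace ℂ V] [FiniteDimensional ℂ V]
    {X K T : Set V} {m j : ℕ} {Ω : V → V → V → ℂ} {κ : Type} [Fintype κ] {Q : κ → V → ℂ} {D : ℕ}
    (h : ModelL X K T m j Ω Q D) : Picard K T ∧ Kob K Q D := by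
  classical
  have hX := h.surf.smul
  have hB := h.eqs.cone h.surf.smul
  obtain ⟨F, hFX, hF⟩ := h.exists_finset
  have h1 : ∀ q : V, ∃ n, q ∈ F → ResAt X T q n := by
    intro q
    by_cases hq : q ∈ F
    · obtain ⟨n, hn⟩ := exists_resAt h.surf h.eqs h.thin (hFX q hq)
      exact ⟨n, fun _ => hn⟩
    · exact ⟨0, fun h2 => absurd h2 hq⟩
  choose n hn using h1
  refine picKobN (F.sup n) V X K T m j Ω κ Q D h fun x hx => ?_
  rcases hF x hx with h2 | ⟨q, hq, hxq⟩
  · exact h2.mono_le (Nat.zero_le _)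
  · exact ((hn q hq).mono_le (Finset.le_sup (f := n) hq)).pr hX hB hxq

end Pool.Agent.H36.LB
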