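import Pool.Agent.H36.LB.BlowL
import Pool.Agent.H36.BPL.Wrap

/-!
# LB Model: open surfaces with an arbitrary boundary curve
-/

set_option autoImplicit false

namespace Pool.Agent.H36.LB

open Filter Topology Metric
open Pool.Agent.H17BP (Surface IsChart IsForm NoZeros NodalAt Pr HolP Picard Eqs)
open Pool.Agent.H36.BPL (OpenPart PoleLE)

variable {V : Type} [NormedAddCommGroup V] [NormedSpace ℂ V]

/-- A closed surface `X`, an open part `K` of it, a curve `T ⊇ X ∖ K`, a section `Ω` of `m K_X - j H` on `K` without zeros outside `T` and with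
poles of order at most `m - 1` along `X ∖ K`, such that every limit of order at most two of discs in `K` which is not a map into `T` is constant. -/
structure ModelL (X K T : Set V) (m j : ℕ) (Ω : V → V → V → ℂ) {κ : Type} (Q : κ → V → ℂ) (D : ℕ) : Prop where
  surf : Surface X
  opn : OpenPart X K
  sub : ∀ x ∈ X, x ∉ K → x ∈ T
  one_m : 1 ≤ m
  one_j : 1 ≤ j
  form : IsForm K m j Ω
  noZeros : NoZeros K T Ω
  pole : PoleLE X K (m - 1) Ω
  eqs : Eqs X T Q D
  thin : ∀ σ τ, IsChart X σ τ → ∃ᶠ p in 𝓝 (0 : ℂ × ℂ), σ p ∉ T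
  lim : Lim2 X K T

end Pool.Agent.H36.LB
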