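import Pool.Agent.H36.LB.Model
import Pool.Agent.H36.LB.Hur
import Pool.Agent.H36.BPB.Main
import Pool.Agent.H36.BPB.Metric
import Pool.Agent.H14.KB.KobNodal

/-!
# LB NodalL: open surfaces with an arbitrary boundary curve, the nodal case
-/

set_option autoImplicit false

open Topology Filter Metric

noncomputable section

namespace Pool.Agent.H36.LB

open Pool.Agent Pool.Agent.H17BP
open Pool.Agent.H17 (PN HolomorphicInto puncturedDisc)
open Pool.Agent.H36.BP hiding kobayashi_of_bound picard_cone_of_bound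
open Pool.Agent.H36.BPL
open Pool.Agent.H36.BPB (MD IsLimit LimMod2 ConvAt brody_bound_lim picard_cone_of_bound kobayashi_of_bound)
open Pool.Agent.H14.KB (Kob ptN ptN_eq ptsOf coneOf_ptsOf rhoS rhoS_nonneg)
open Pool.Agent.H14.PP (IsCone IsOpenPart IsNodal Chart HasType DType gD aCoef Form IsEq)

theorem convP_of_convAt {V : Type} [NormedAddCommGroup V] [NormedSpace ℂ V] {N : ℕ} (L : V ≃L[ℂ] EN N) {l : Filter ℕ} (hl : l ≤ atTop)
    {F : ℕ → ℂ → EN N} {H : ℂ → EN N} (hH : Differentiable ℂ H) (hH0 : ∀ z, H z ≠ 0)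
    (hF : ∀ n : ℕ, DifferentiableOn ℂ (F n) (ball 0 (n + 1))) {z₀ : ℂ} (h : ConvAt l F H z₀) :
    ConvP l (fun n z => L.symm (F n z)) (fun z => L.symm (H z)) z₀ := by
  obtain ⟨s, hs, φ, hφ, hlim⟩ := h
  refine ⟨s, fun n z => L.symm (φ n z • F n z), fun z => L.symm (H z), hs, ?_, ?_, ?_, ?_⟩
  · obtain ⟨n₀, hn₀⟩ := exists_nat_ge (‖z₀‖ + s)
    filter_upwards [hφ, hl (eventually_ge_atTop n₀)] with n hn hn2
    have hsub : ball z₀ s ⊆ ball (0 : ℂ) (n + 1) := by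
      intro w hw
      rw [mem_ball_zero_iff]
      have h2 : ‖w - z₀‖ < s := by simpa [dist_eq_norm] using hw
      have h3 : ‖w‖ ≤ ‖w - z₀‖ + ‖z₀‖ := by
        have := norm_add_le (w - z₀) z₀
        rwa [sub_add_cancel] at this
      have h4 : (n₀ : ℝ) ≤ n := by exact_mod_cast hn2
      linarith
    refine ⟨?_, fun z hz => ?_⟩
    · exact ((L.symm : EN N →L[ℂ] V).differentiable).comp_differentiableOn (hn.1.smul ((hF n).mono hsub))
    · refine Pr.symm ⟨φ n z, hn.2 z hz, ?_⟩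
      rw [map_smul]
  · exact (((L.symm : EN N →L[ℂ] V).differentiable).comp hH).differentiableOn
  · exact fun z _ => ⟨fun h => hH0 z (L.symm.map_eq_zero_iff.mp h), Pr.refl _⟩
  · exact tlu_comp hlim hH.continuous.continuousOn fun x _ => L.symm.continuous.continuousAt

/-- transport of the hypothesis on the limit curves -/
theorem limMod2_transport {V : Type} [NormedAddCommGroup V] [NormedSpace ℂ V] {N : ℕ} (L : V ≃L[ℂ] EN N) {X K T : Set V}
    (hX : Surface X) (hK : OpenPart X K) (h : Lim2 X K T) :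
    LimMod2 (L.symm ⁻¹' K : Set (EN N)) ((L.symm ⁻¹' K : Set (EN N)) ∩ L.symm ⁻¹' T) := by
  have hcone : IsCone (L.symm ⁻¹' X : Set (EN N)) := isCone_transport L hX
  intro l F H hlim hcl h0K _ hne hord z hzK
  refine ⟨hzK, ?_⟩
  by_contra hzT
  have hclX : ∀ x ∈ closure (L.symm ⁻¹' X : Set (EN N)), x ≠ 0 → x ∈ (L.symm ⁻¹' X : Set (EN N)) := fun x hx hx0 =>
    (hcone.closed.closure_subset_iff.mpr (Set.subset_insert 0 _) hx).resolve_left hx0
  have hKX : (L.symm ⁻¹' K : Set (EN N)) ⊆ L.symm ⁻¹' X := fun x hx => hK.sub hx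
  have hKne : ∀ x ∈ K, x ≠ 0 := fun x hx e => hX.zero (e ▸ hK.sub hx)
  have hcur : LimCurve X K l (fun n z => L.symm (F n z)) (fun z => L.symm (H z)) := by
    refine
    { neBot := hlim.neBot
      le_atTop := hlim.le_atTop
      hol := fun z => ⟨fun z => L.symm (H z), ((L.symm : EN N →L[ℂ] V).analyticAt _).comp (hlim.hol.analyticAt z),
        fun h => hlim.ne z (L.symm.map_eq_zero_iff.mp h), Eventually.of_forall fun w => Pr.refl _⟩
      mem := fun z => hclX _ (closure_mono hKX (hcl z)) (hlim.ne z)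
      zero_mem := h0K
      holF := fun n z hz => ⟨fun z => L.symm (F n z),
        ((L.symm : EN N →L[ℂ] V).analyticAt _).comp ((hlim.diff n).analyticAt (isOpen_ball.mem_nhds hz)), ?_,
        Eventually.of_forall fun w => Pr.refl _⟩
      memF := fun n z hz => hlim.mem n z hz
      zero := convP_of_convAt L hlim.le_atTop hlim.hol hlim.ne hlim.diff hlim.zero
      conv := fun z₀ => (hlim.conv z₀).mono fun z hz => convP_of_convAt L hlim.le_atTop hlim.hol hlim.ne hlim.diff hz }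
    exact hKne _ (hlim.mem n z hz)
  have hall := h l _ _ hcur (hord.equiv L.symm) ⟨z, hzT⟩
  obtain ⟨a, b, hab⟩ := hne
  obtain ⟨c, hc, e⟩ := hall a b
  refine hab c (L.symm.injective ?_)
  rw [map_smul]
  exact e

/-- The metric theorem for open surfaces in `ℙ(V)`. -/
theorem nodalL_metric {V : Type} [NormedAddCommGroup V] [NormedSpace ℂ V] {N : ℕ} (L : V ≃L[ℂ] EN N)
    {W : Type} [NormedAddCommGroup W] [InnerProductSpace ℂ W] {X K T : Set V} {m j : ℕ}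
    {Ω : V → V → V → ℂ} {Q : V → W} {D : ℕ} (hX : Surface X) (hK : OpenPart X K)
    (hKT : ∀ x ∈ X, x ∉ K → x ∈ T) (hQ : ∀ x, AnalyticAt ℂ Q x)
    (hQs : ∀ (c : ℂ) (x : V), Q (c • x) = c ^ D • Q x) (hT : ∀ x, x ∈ T ↔ x ∈ X ∧ Q x = 0)
    (hn : ∀ x ∈ T, PairNodalAt X K T x) (hm : 1 ≤ m) (hj : 1 ≤ j) (hΩ : IsForm K m j Ω)
    (hz : NoZeros K T Ω) (hpl : PoleLE X K (m - 1) Ω) :
    IsEq (L.symm ⁻¹' X : Set (EN N)) (L.symm ⁻¹' T) (fun y => Q (L.symm y)) D ∧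
    ∃ (M' : ℕ) (c₀ C : ℝ) (G : EN N → EN N → ℝ), MD (L.symm ⁻¹' K : Set (EN N))
      ((L.symm ⁻¹' K : Set (EN N)) ∩ L.symm ⁻¹' T) G
      (Pool.Agent.H14.PP.rho (fun y => Q (L.symm y)) D) M' c₀ C := by
  set X' : Set (EN N) := L.symm ⁻¹' X with hX'
  set K' : Set (EN N) := L.symm ⁻¹' K with hK'
  set T' : Set (EN N) := L.symm ⁻¹' T with hT'
  have hTs : ∀ x ∈ T, ∀ c : ℂ, c ≠ 0 → c • x ∈ T := by
    intro x hx c hc
    obtain ⟨h1, h2⟩ := (hT x).mp hx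
    exact (hT _).mpr ⟨hX.smul x h1 c hc, by rw [hQs, h2, smul_zero]⟩
  have hTX : T ⊆ X := fun x hx => ((hT x).mp hx).1
  have hcone : IsCone X' := isCone_transport L hX
  have hT's : ∀ x ∈ T', ∀ c : ℂ, c ≠ 0 → c • x ∈ T' := by
    intro x hx c hc
    show L.symm (c • x) ∈ T
    rw [map_smul]
    exact hTs _ hx c hc
  have hK's : ∀ x ∈ K', ∀ c : ℂ, c ≠ 0 → c • x ∈ K' := by
    intro x hx c hc
    show L.symm (c • x) ∈ K
    rw [map_smul]
    exact hK.smul _ hx c hc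
  have hopen : IsOpenPart X' K' := ⟨fun x hx => hK.sub hx, hK's, fun x hx => (L.symm.continuous.tendsto x).eventually (hK.rel _ hx)⟩
  have hnodal : IsNodal X' K' T' := by
    intro x hx
    have hxT : L.symm x ∈ T := hx
    obtain ⟨σ, τ, hc, h0, nd, d, hnd, hd, hdn⟩ := hn (L.symm x) hxT
    have hg := germ_transport L hc
    have hLσ0 : L (σ 0) = x := by rw [h0, L.apply_symm_apply]
    have hnd' : ∀ᶠ p in 𝓝 (0 : ℂ × ℂ), (L (σ p) ∈ T' ↔ p.1 = 0 ∨ (nd = true ∧ p.2 = 0)) := by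
      filter_upwards [hnd] with p hp
      rw [← hp]
      show L.symm (L (σ p)) ∈ T ↔ _
      rw [L.symm_apply_apply]
    have hd' : ∀ᶠ p in 𝓝 (0 : ℂ × ℂ), (L (σ p) ∉ K' ↔ (d.1 = true ∧ p.1 = 0) ∨ (d.2 = true ∧ p.2 = 0)) := by
      filter_upwards [hd] with p hp
      rw [← hp]
      show L.symm (L (σ p)) ∉ K ↔ _
      rw [L.symm_apply_apply]
    obtain ⟨χ, h2, h3, h4, h5⟩ := exists_chart hcone hK's hT's hg hnd' hd'
    refine ⟨χ, nd, d, ?_, ?_, h4, h5, hdn⟩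
    · rwa [hLσ0] at h2
    · rwa [hLσ0] at h3
  have heq : IsEq X' T' (fun y => Q (L.symm y)) D := by
    refine ⟨fun x => (hQ _).comp ((L.symm : EN N →L[ℂ] V).analyticAt x), fun c x => ?_, fun x => ?_⟩
    · show Q (L.symm (c • x)) = _
      rw [map_smul, hQs]
    · exact hT (L.symm x)
  have hnz : (formT L hΩ).NoZeroOff T' := by
    intro x hx hxT v w hv hw hli
    refine hz (L.symm x) hx hxT _ (tan_transport L hv) _ (tan_transport L hw) ?_
    have h1 := hli.map' ((L.symm : EN N →L[ℂ] V) : EN N →ₗ[ℂ] V) (LinearMap.ker_eq_bot.mpr L.symm.injective)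
    have h2 : (((L.symm : EN N →L[ℂ] V) : EN N →ₗ[ℂ] V) ∘ ![x, v, w]) = ![L.symm x, L.symm v, L.symm w] := by
      funext i
      fin_cases i <;> rfl
    rw [h2] at h1
    exact h1
  have hpole : (formT L hΩ).PoleBound X' := poleBound_transport L hΩ hpl
  have hclX : ∀ x ∈ closure X', x ≠ 0 → x ∈ X' := fun x hx hx0 =>
    (hcone.closed.closure_subset_iff.mpr (Set.subset_insert 0 X') hx).resolve_left hx0
  refine ⟨heq, Pool.Agent.H36.BPB.exists_metricB hcone hopen (fun x hx hxn => hKT _ hx hxn) heq hnodal hm hj (formT L hΩ) hnz hpole ?_⟩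
  intro l hl F H z₀ s hs hF hH hlim hH0 h0
  have hXc : ∀ x ∈ closure X, x ≠ 0 → x ∈ X := by
    intro x hx hx0
    have h1 : L x ∈ closure X' := by
      have h2 : closure X' = L.symm ⁻¹' (closure X) := (L.symm.toHomeomorph.preimage_closure X).symm
      rw [h2]
      show L.symm (L x) ∈ closure X
      rwa [L.symm_apply_apply]
    have h2 := hclX _ h1 fun h => hx0 (L.map_eq_zero_iff.mp h)
    have h3 : L.symm (L x) ∈ X := h2
    rwa [L.symm_apply_apply] at h3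
  have h1 := hur_openPart hXc hK hl hs (F := fun n z => L.symm (F n z)) (H := fun z => L.symm (H z)) (by
    filter_upwards [hF] with n hn
    exact ⟨((L.symm : EN N →L[ℂ] V).differentiable).comp_differentiableOn hn.1, fun z hz => hn.2 z hz⟩)
    (((L.symm : EN N →L[ℂ] V).differentiable).comp_differentiableOn hH)
    (tlu_comp hlim hH.continuousOn fun x _ => L.symm.continuous.continuousAt)
    (fun h => hH0 (L.symm.map_eq_zero_iff.mp h)) h0
  exact h1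

/-- **The nodal case.** -/
theorem nodalL {V : Type} [NormedAddCommGroup V] [NormedSpace ℂ V] [FiniteDimensional ℂ V]
    {X K B : Set V} {m j : ℕ} {Ω : V → V → V → ℂ} {κ : Type} [Fintype κ] {Q : κ → V → ℂ} {D : ℕ}
    (h : ModelL X K B m j Ω Q D) (hn : ∀ x ∈ X, NodalAt X B x) : Picard K B ∧ Kob K Q D := by
  classical
  have hKX := h.opn.sub
  have hKs := h.opn.smul
  -- the trivial case
  by_cases hXe : ∃ x₀, x₀ ∈ X
  swap
  · refine ⟨fun r hr f hf hfB => ?_, 1, 0, le_rfl, le_rfl, fun f F hf _ _ _ => ?_⟩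
    · obtain ⟨z₁, hz₁, hz₁r, -⟩ := hfB
      exact absurd ⟨f z₁, hKX (hf z₁ hz₁ hz₁r).2⟩ hXe
    · exact absurd ⟨f 0, hKX (hf 0 (by simp)).2⟩ hXe
  obtain ⟨x₀, hx₀⟩ := hXe
  have hXs := h.surf.smul
  have hne : ∀ x ∈ X, x ≠ 0 := fun x hx e => h.surf.zero (e ▸ hx)
  have hBs := h.eqs.cone h.surf.smul
  have hpos : 0 < Module.finrank ℂ V :=
    Module.finrank_pos_iff_exists_ne_zero.mpr ⟨x₀, hne x₀ hx₀⟩
  obtain ⟨N, hN⟩ : ∃ N, Module.finrank ℂ V = N + 1 := ⟨Module.finrank ℂ V - 1, by omega⟩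
  let L : V ≃L[ℂ] EN N := ContinuousLinearEquiv.ofFinrankEq (by rw [hN]; simp)
  obtain ⟨heq, M, c₀, C, G, hM⟩ := nodalL_metric L (Q := Nodal_Q Q) (D := D) h.surf h.opn h.sub (fun x => by
    have h1 : AnalyticAt ℂ (fun x : V => fun i => Q i x) x := by
      rw [analyticAt_pi_iff]
      exact fun i => h.eqs.an i x
    exact AnalyticAt.comp (g := (WithLp.toLp 2 : (κ → ℂ) → EuclideanSpace ℂ κ))
      (f := fun x : V => fun i => Q i x) ((EuclideanSpace.equiv κ ℂ).symm.analyticAt _) h1)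
    (fun c x => by
      unfold Nodal_Q
      rw [← WithLp.toLp_smul]
      congr 1
      funext i
      simp [h.eqs.smul]) (T := B) (fun x => by
      rw [h.eqs.mem_iff]
      unfold Nodal_Q
      constructor
      · rintro ⟨h1, h2⟩
        refine ⟨h1, ?_⟩
        have h3 : (fun i => Q i x) = (0 : κ → ℂ) := funext h2
        rw [h3]
        rfl
      · rintro ⟨h1, h2⟩
        refine ⟨h1, fun i => ?_⟩
        have h3 := congrFun (congrArg WithLp.ofLp h2) i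
        exact h3) (fun x hx => pairNodal_of_nodal h.opn h.sub (h.eqs.sub hx) hx (hn x (h.eqs.sub hx)))
      h.one_m h.one_j h.form h.noZeros h.pole
  have hcone : Pool.Agent.H14.PP.IsCone (L.symm ⁻¹' X : Set (EN N)) := isCone_transport L h.surf
  have hT's : ∀ x ∈ (L.symm ⁻¹' B : Set (EN N)), ∀ c : ℂ, c ≠ 0 → c • x ∈ (L.symm ⁻¹' B : Set (EN N)) := by
    intro x hx c hc
    show L.symm (c • x) ∈ B
    rw [map_smul]
    exact hBs _ hx c hc
  have hK's : ∀ x ∈ (L.symm ⁻¹' K : Set (EN N)), ∀ c : ℂ, c ≠ 0 → c • x ∈ (L.symm ⁻¹' K : Set (EN N)) := by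
    intro x hx c hc
    show L.symm (c • x) ∈ K
    rw [map_smul]
    exact hKs _ hx c hc
  have hK'0 : (0 : EN N) ∉ (L.symm ⁻¹' K : Set (EN N)) := fun h0 => hcone.zero_notMem (hKX h0)
  have e1 : coneOf (ptsOf (L.symm ⁻¹' K : Set (EN N))) = L.symm ⁻¹' K :=
    coneOf_ptsOf hK'0 hK's
  have e2 : coneOf (ptsOf ((L.symm ⁻¹' K : Set (EN N)) ∩ L.symm ⁻¹' B)) =
      (L.symm ⁻¹' K : Set (EN N)) ∩ L.symm ⁻¹' B :=
    coneOf_ptsOf (fun h0 => hK'0 h0.1)
      (fun x hx c hc => ⟨hK's x hx.1 c hc, hT's x hx.2 c hc⟩)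
  obtain ⟨K₁, hK₁, hK₁b⟩ := Pool.Agent.H14.PP.exists_rho_bound hcone heq
  have hM2 : MD (coneOf (ptsOf (L.symm ⁻¹' K : Set (EN N))))
      (coneOf (ptsOf ((L.symm ⁻¹' K : Set (EN N)) ∩ L.symm ⁻¹' B))) G
      (Pool.Agent.H14.PP.rho (fun y => Nodal_Q Q (L.symm y)) D) M c₀ C := by
    rw [e1, e2]
    exact hM
  have hbound := brody_bound_lim hM (limMod2_transport L h.surf h.opn h.lim)
  have hρB : ∀ x ∈ (L.symm ⁻¹' K : Set (EN N)), x ∈ (L.symm ⁻¹' K : Set (EN N)) ∩ L.symm ⁻¹' B →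
      Pool.Agent.H14.PP.rho (fun y => Nodal_Q Q (L.symm y)) D x = 0 := by
    intro x _ hx
    have h1 := ((heq.mem_iff x).1 hx.2).2
    unfold Pool.Agent.H14.PP.rho
    simp only at h1 ⊢
    rw [h1, norm_zero, zero_div]
  refine ⟨?_, ?_⟩
  · refine W_picard (fun h0 => h.surf.zero (h.opn.sub h0)) h.opn.smul hBs fun f hf hfX hfB => ?_
    obtain ⟨z₁, hz₁, hz₁T⟩ := hfB
    obtain ⟨g, hg, hgf⟩ := picard_cone_of_bound hM hbound (fun x hx c hc => ⟨hK's x hx.1 c hc, hT's x hx.2 c hc⟩) hρB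
      (fun z => toPN L (f z)) (holomorphicInto_toPN L hf)
      (fun z hz => (toPN_mem L h.opn.smul (f z)).mpr (hfX z hz)) ⟨z₁, hz₁, fun h1 => hz₁T ((toPN_mem L hBs (f z₁)).mp h1.2)⟩
    exact ⟨fun z => ofPN L (g z), holInto_ofPN L hg, fun z hz => by simp only; rw [hgf z hz, ofPN_toPN]⟩
  obtain ⟨L₁, hL₁, hkob⟩ := kobayashi_of_bound hM2 (by
    rw [e1]
    exact hbound)
  set A : ℝ := ‖(L : V →L[ℂ] EN N)‖ with hA
  set A' : ℝ := ‖(L.symm : EN N →L[ℂ] V)‖ with hA'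
  have hA0 : 0 ≤ A := norm_nonneg _
  have hA'0 : 0 ≤ A' := norm_nonneg _
  -- comparison of the sizes
  have hρ : ∀ x ∈ X, rhoS Q D x ≤ A ^ D *
      Pool.Agent.H14.PP.rho (fun y => Nodal_Q Q (L.symm y)) D (L x) := by
    intro x hx
    have hx0 : 0 < ‖x‖ := norm_pos_iff.mpr (hne x hx)
    have hLx0 : 0 < ‖L x‖ := norm_pos_iff.mpr fun h0 => hne x hx (L.map_eq_zero_iff.mp h0)
    unfold rhoS Pool.Agent.H14.PP.rho
    simp only
    rw [L.symm_apply_apply, ← mul_div_assoc, div_le_div_iff₀ (by positivity) (by positivity)]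
    have h1 : ‖fun i => Q i x‖ ≤ ‖Nodal_Q Q x‖ := by
      refine (pi_norm_le_iff_of_nonneg (norm_nonneg _)).mpr fun i => ?_
      exact PiLp.norm_apply_le (Nodal_Q Q x) i
    have h2 : ‖L x‖ ≤ A * ‖x‖ := (L : V →L[ℂ] EN N).le_opNorm x
    calc ‖fun i => Q i x‖ * ‖L x‖ ^ D ≤ ‖Nodal_Q Q x‖ * (A * ‖x‖) ^ D := by gcongr
      _ = A ^ D * ‖Nodal_Q Q x‖ * ‖x‖ ^ D := by rw [mul_pow]; ring
  have hρ2 : ∀ x ∈ X, rhoS Q D x ≤ A ^ D * K₁ := by
    intro x hx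
    refine (hρ x hx).trans (mul_le_mul_of_nonneg_left (hK₁b _ ?_) (by positivity))
    show L.symm (L x) ∈ X
    rwa [L.symm_apply_apply]
  refine ⟨M + 1, A ^ D * K₁ * ((A ^ D) ^ M * (A' * (L₁ * A))), by omega, by positivity,
    fun f F hf hF hF0 hfF => ?_⟩
  have hf0 := (hf 0 (by simp)).2
  have hFX : F 0 ∈ X := (Pr.mem_iff hXs hfF.self_of_nhds).1 (hKX hf0)
  have hx1 : (L x₀).ofLp ≠ 0 := ofLp_ne_zero fun h0 => hne x₀ hx₀ (L.map_eq_zero_iff.mp h0)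
  set p : ℂ → PN N := fun z => ptN (L x₀).ofLp hx1 (L (f z)).ofLp with hp
  have hLne : ∀ y : V, y ≠ 0 → (L y).ofLp ≠ 0 := fun y hy =>
    ofLp_ne_zero fun h0 => hy (L.map_eq_zero_iff.mp h0)
  have hLpr : ∀ {y y' : V}, Pr y y' → Pr (L y).ofLp (L y').ofLp := by
    rintro y y' ⟨c, hc, rfl⟩
    exact ⟨c, hc, by rw [map_smul]; rfl⟩
  have hpoint : ∀ {z : ℂ} {y : V} (hy : y ≠ 0), Pr (f z) y →
      p z = Projectivization.mk ℂ (L y).ofLp (hLne y hy) := fun hy h1 =>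
    ptN_eq _ _ _ (hLpr h1)
  have h1 := hkob p (fun z => L (F z)) (by
    intro z₀ hz₀
    rw [mem_ball_zero_iff] at hz₀
    obtain ⟨Φ, hΦ, hΦ0, he⟩ := (hf z₀ hz₀).1
    refine ⟨fun z => (L (Φ z)).ofLp, analyticAt_ofLp (((L : V →L[ℂ] EN N).analyticAt _).comp hΦ), ?_⟩
    filter_upwards [he, hΦ.continuousAt.eventually_ne hΦ0] with z h2 h3
    exact ⟨hLne _ h3, hpoint h3 h2⟩) (by
    intro z hz
    rw [mem_ball_zero_iff] at hz
    have h2 := (hf z hz).2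
    have h2X := hKX h2
    show L.symm (WithLp.toLp 2 (p z).rep) ∈ K
    rw [hpoint (hne _ h2X) ⟨1, one_ne_zero, (one_smul _ _).symm⟩]
    obtain ⟨a, ha, h4⟩ := rep_mk (V := Fin (N + 1) → ℂ) (hLne _ (hne _ h2X))
    rw [h4, WithLp.toLp_smul, WithLp.toLp_ofLp, map_smul, L.symm_apply_apply]
    exact hKs _ h2 a ha) (((L : V →L[ℂ] EN N).analyticAt _).comp hF) (by
    filter_upwards [hfF, hF.continuousAt.eventually_ne hF0] with z h2 h3
    exact ⟨hLne _ h3, hpoint h3 h2⟩)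
  have hd : deriv (fun z => L (F z)) 0 = L (deriv F 0) := by
    have h2 : HasDerivAt (fun z => L (F z)) (L (deriv F 0)) 0 :=
      (L : V →L[ℂ] EN N).hasFDerivAt.comp_hasDerivAt 0 hF.differentiableAt.hasDerivAt
    exact h2.deriv
  rw [hd] at h1
  have hLF0 : L (F 0) ≠ 0 := fun h0 => hF0 (L.map_eq_zero_iff.mp h0)
  rw [Pool.Agent.H14.PP.fs_eq hLF0] at h1
  set a : ℂ := inner ℂ (L (F 0)) (L (deriv F 0)) / (‖L (F 0)‖ : ℂ) ^ 2 with ha
  refine ⟨a, ?_⟩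
  have hLFn : 0 < ‖L (F 0)‖ := norm_pos_iff.mpr hLF0
  have h2 : L (deriv F 0) - a • L (F 0) = L (deriv F 0 - a • F 0) := by
    rw [map_sub, map_smul]
  rw [h2, ← mul_div_assoc, div_le_iff₀ hLFn] at h1
  have h3 : ‖deriv F 0 - a • F 0‖ ≤ A' * ‖L (deriv F 0 - a • F 0)‖ := by
    have := (L.symm : EN N →L[ℂ] V).le_opNorm (L (deriv F 0 - a • F 0))
    have e : (L.symm : EN N →L[ℂ] V) (L (deriv F 0 - a • F 0)) = deriv F 0 - a • F 0 :=
      L.symm_apply_apply _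
    rwa [e] at this
  have h4 : ‖L (F 0)‖ ≤ A * ‖F 0‖ := (L : V →L[ℂ] EN N).le_opNorm _
  set ρ₀ := Pool.Agent.H14.PP.rho (fun y => Nodal_Q Q (L.symm y)) D (L (F 0)) with hρ₀
  have hρ₀0 : 0 ≤ ρ₀ := Pool.Agent.H14.PP.rho_nonneg _ _ _
  have h5 := hρ _ hFX
  have h6 := hρ2 _ hFX
  have h7 := rhoS_nonneg Q D (F 0)
  calc rhoS Q D (F 0) ^ (M + 1) * ‖deriv F 0 - a • F 0‖
      = rhoS Q D (F 0) * (rhoS Q D (F 0) ^ M * ‖deriv F 0 - a • F 0‖) := by rw [pow_succ]; ring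
    _ ≤ A ^ D * K₁ * ((A ^ D * ρ₀) ^ M * (A' * ‖L (deriv F 0 - a • F 0)‖)) := by gcongr
    _ = A ^ D * K₁ * ((A ^ D) ^ M * (A' * (ρ₀ ^ M * ‖L (deriv F 0 - a • F 0)‖))) := by
        rw [mul_pow]; ring
    _ ≤ A ^ D * K₁ * ((A ^ D) ^ M * (A' * (L₁ * ‖L (F 0)‖))) := by gcongr
    _ ≤ A ^ D * K₁ * ((A ^ D) ^ M * (A' * (L₁ * (A * ‖F 0‖)))) := by gcongr
    _ = A ^ D * K₁ * ((A ^ D) ^ M * (A' * (L₁ * A))) * ‖F 0‖ := by ring

end Pool.Agent.H36.LB
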