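import Pool.Agent.H36.LB.PNDefs
import Pool.Agent.H36.LB.Hur

/-!
# LB PNConv: the hypothesis on limits in `ℙ^N` and on limits in the cone
-/

set_option autoImplicit false

open Topology Filter Metric

namespace Pool.Agent.H36.LB

open Pool.Agent.H17 (PN HolomorphicInto ZariskiClosedIn)
open Pool.Agent.H17BP (Pr HolP)
open Pool.Agent.H36.BP (OrdTwo)
open Pool.Agent.H36.BPL (OpenPart)
open Pool.Agent.H13.OT (OrderTwo mk_eq_of_pr pr_of_mk_eq holomorphicInto_mk OrdTwo.orderTwo)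

variable {N : ℕ}

open Classical in
/-- the point of `ℙ^N` of a vector -/
noncomputable def pt (x₀ : PN N) (x : Fin (N + 1) → ℂ) : PN N := if h : x ≠ 0 then Projectivization.mk ℂ x h else x₀

theorem pt_eq {x₀ : PN N} {x y : Fin (N + 1) → ℂ} (hy : y ≠ 0) (h : Pr x y) : pt x₀ x = Projectivization.mk ℂ y hy := by
  have hx : x ≠ 0 := by
    obtain ⟨c, hc, rfl⟩ := h
    exact smul_ne_zero hc hy
  unfold pt
  rw [dif_pos hx]
  exact mk_eq_of_pr h hx hy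

theorem convPN_of_convP {x₀ : PN N} {l : Filter ℕ} {F : ℕ → ℂ → Fin (N + 1) → ℂ} {f : ℂ → Fin (N + 1) → ℂ} (hf0 : ∀ z, f z ≠ 0)
    {z₀ : ℂ} (h : ConvP l F f z₀) (hF : ∀ s : ℝ, ∀ᶠ n in l, ∀ z ∈ ball z₀ s, F n z ≠ 0) :
    ConvPN l (fun n z => pt x₀ (F n z)) (fun z => Projectivization.mk ℂ (f z) (hf0 z)) z₀ := by
  obtain ⟨s, Φ, Φ₀, hs, hΦ, hΦ₀, hf, hlim⟩ := h
  refine ⟨s, Φ, Φ₀, hs, ?_, hΦ₀, fun z hz => ⟨(hf z hz).1, mk_eq_of_pr (hf z hz).2 _ _⟩, hlim⟩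
  filter_upwards [hΦ, hF s] with n hn hn2
  refine ⟨hn.1, fun z hz => ?_⟩
  have h1 : Φ n z ≠ 0 := by
    obtain ⟨c, hc, e⟩ := hn.2 z hz
    intro h0
    rw [h0, smul_zero] at e
    exact hn2 z hz e
  exact ⟨h1, pt_eq h1 (hn.2 z hz)⟩

/-- The hypothesis on limits in `ℙ^N` gives the hypothesis on limits in the cone: `U` is a set of points in the
projective space and `K` its cone, `X` the closed cone, `T ⊇ X ∖ K`. -/
theorem lim2_of_limModPN {U Ξ : Set (PN N)} {X K T : Set (Fin (N + 1) → ℂ)} (h0 : ∀ x ∈ X, x ≠ 0)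
    (hXs : ∀ x ∈ X, ∀ c : ℂ, c ≠ 0 → c • x ∈ X) (hXc : ∀ x ∈ closure X, x ≠ 0 → x ∈ X) (hK : OpenPart X K)
    (hKT : ∀ x ∈ X, x ∉ K → x ∈ T)
    (hU : ∀ (x : Fin (N + 1) → ℂ) (hx : x ≠ 0), Projectivization.mk ℂ x hx ∈ U ↔ x ∈ K)
    (hT : ∀ (x : Fin (N + 1) → ℂ) (hx : x ≠ 0), x ∈ K → Projectivization.mk ℂ x hx ∈ Ξ → x ∈ T)
    (h : LimModPN U Ξ) : Lim2 X K T := by
  rintro l F f hf hord ⟨z₁, hz₁⟩ z w
  by_contra hzw
  have hf0 : ∀ z, f z ≠ 0 := fun z => h0 _ (hf.mem z)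
  have hF0 : ∀ n : ℕ, ∀ z ∈ ball (0 : ℂ) (n + 1), F n z ≠ 0 := fun n z hz => h0 _ (hK.sub (hf.memF n z hz))
  set x₀ : PN N := Projectivization.mk ℂ (f 0) (hf0 0) with hx₀
  have hev : ∀ (z₀ : ℂ) (s : ℝ), ∀ᶠ n in l, ∀ z ∈ ball z₀ s, F n z ≠ 0 := by
    intro z₀ s
    obtain ⟨n₀, hn₀⟩ := exists_nat_ge (‖z₀‖ + s)
    filter_upwards [hf.le_atTop (eventually_ge_atTop n₀)] with n hn w hw
    refine hF0 n w ?_
    rw [mem_ball_zero_iff]
    have h2 : ‖w - z₀‖ < s := by simpa [dist_eq_norm] using hw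
    have h3 : ‖w‖ ≤ ‖w - z₀‖ + ‖z₀‖ := by
      have := norm_add_le (w - z₀) z₀
      rwa [sub_add_cancel] at this
    have h4 : (n₀ : ℝ) ≤ n := by exact_mod_cast hn
    linarith
  have hlim : IsLimitPN U l (fun n z => pt x₀ (F n z)) (fun z => Projectivization.mk ℂ (f z) (hf0 z)) := by
    refine
    { neBot := hf.neBot
      le_atTop := hf.le_atTop
      hol := holomorphicInto_mk hf0 hf.hol
      zero_mem := (hU _ _).2 hf.zero_mem
      holF := ?_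
      memF := ?_
      zero := convPN_of_convP hf0 hf.zero (hev 0)
      conv := fun z₀ => (hf.conv z₀).mono fun z hz => convPN_of_convP hf0 hz (hev z)
      mem_of_conv := ?_ }
    · intro n z hz
      obtain ⟨G, hG, hG0, he⟩ := hf.holF n z hz
      refine ⟨G, hG, ?_⟩
      filter_upwards [he, hG.continuousAt.eventually_ne hG0] with y h1 h2
      exact ⟨h2, pt_eq h2 h1⟩
    · intro n z hz
      have h1 := hF0 n z hz
      show pt x₀ (F n z) ∈ U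
      rw [pt_eq h1 (Pool.Agent.H17BP.Pr.refl _)]
      exact (hU _ h1).2 (hf.memF n z hz)
    · intro z hz
      refine (hU _ _).2 ?_
      obtain ⟨s, Φ, Φ₀, hs, hΦ, hΦ₀, hf', hlim⟩ := hz
      refine hf.mem_of_conv hXs hXc hK (z := z) ⟨s, Φ, Φ₀, hs, ?_, hΦ₀, fun w hw => ?_, hlim⟩
      · filter_upwards [hΦ, hev z s] with n hn hn2
        refine ⟨hn.1, fun w hw => ?_⟩
        obtain ⟨h1, h2⟩ := hn.2 w hw
        rw [pt_eq (hn2 w hw) (Pool.Agent.H17BP.Pr.refl _)] at h2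
        exact pr_of_mk_eq _ _ h2
      · obtain ⟨h1, h2⟩ := hf' w hw
        exact ⟨h1, pr_of_mk_eq _ _ h2⟩
  have hz₁K : f z₁ ∈ K := by
    by_contra hcon
    exact hz₁ (hKT _ (hf.mem z₁) hcon)
  exact hz₁ (hT _ (hf0 z₁) hz₁K (h l _ _ hlim (OrdTwo.orderTwo hf0 hf.hol hord) ⟨z, w, fun he => hzw (pr_of_mk_eq _ _ he)⟩ z₁
    ((hU _ _).2 hz₁K)))

end Pool.Agent.H36.LB
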