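import Pool.Agent.H36.LB.Final

/-!
# LB ProperL: limits of discs in a variety which is proper over an affine variety
-/

set_option autoImplicit false

open Topology Filter MvPolynomial Metric

noncomputable section

namespace Pool.Agent.H36.LB

open Pool.Agent.H17 (PN VanishesAt ZariskiClosedIn HolomorphicInto)
open Pool.Agent.H62.FC (Homog)
open Pool.Agent.H62.SA (locVar IsProperMap)
open Pool.Agent.H17BP (vanishesAt_mk)
open Pool.Agent.H13.OT (OrderTwo)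

variable {N : ℕ} {P : Ideal (MvPolynomial (Fin (N + 1)) ℂ)} {s M : ℕ} {G : Fin s → MvPolynomial (Fin (N + 1)) ℂ}
  {F : Fin s → Fin (M + 1) → MvPolynomial (Fin (N + 1)) ℂ} {e : Fin s → ℕ}

open Classical in
/-- the functions on the affine variety -/
def co (G : Fin s → MvPolynomial (Fin (N + 1)) ℂ) (F : Fin s → Fin (M + 1) → MvPolynomial (Fin (N + 1)) ℂ)
    (j : Fin (M + 1)) (x : PN N) : ℂ :=
  if h : ∃ m, eval x.rep (G m) ≠ 0 then eval x.rep (F h.choose j) / eval x.rep (G h.choose) else 0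

theorem mem_locVar_mk (hG : ∀ m, (G m).IsHomogeneous (e m)) (hP : Homog P) {x : Fin (N + 1) → ℂ} (hx : x ≠ 0) :
    Projectivization.mk ℂ x hx ∈ locVar P G ↔ (∀ Q ∈ P, eval x Q = 0) ∧ ∃ m, eval x (G m) ≠ 0 := by
  rw [Pool.Agent.H62.SA.mk_mem_locVar hP hG hx]
  constructor
  · rintro ⟨h1, m, h2⟩
    exact ⟨h1.2, m, h2⟩
  · rintro ⟨h1, m, h2⟩
    exact ⟨⟨hx, h1⟩, m, h2⟩

theorem co_eq (h : IsProperMap P G F e) {x : Fin (N + 1) → ℂ} {hx : x ≠ 0}
    (hxU : ∀ Q ∈ P, eval x Q = 0) {m : Fin s} (hm : eval x (G m) ≠ 0) (j : Fin (M + 1)) :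
    co G F j (Projectivization.mk ℂ x hx) = eval x (F m j) / eval x (G m) := by
  obtain ⟨c, hc⟩ : ∃ c : ℂ, c • x = (Projectivization.mk ℂ x hx).rep := by
    have h1 : Projectivization.mk ℂ (Projectivization.mk ℂ x hx).rep (Projectivization.mk ℂ x hx).rep_nonzero =
      Projectivization.mk ℂ x hx := Projectivization.mk_rep _
    rw [Projectivization.mk_eq_mk_iff'] at h1
    exact h1
  have hc0 : c ≠ 0 := by
    rintro rfl
    rw [zero_smul] at hc
    exact (Projectivization.mk ℂ x hx).rep_nonzero hc.symm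
  have hex : ∃ m, eval (Projectivization.mk ℂ x hx).rep (G m) ≠ 0 := by
    refine ⟨m, ?_⟩
    rw [← hc, Pool.Agent.H17BP.eval_smul_form (h.homG m)]
    simpa using ⟨fun h1 => absurd h1 hc0, hm⟩
  unfold co
  rw [dif_pos hex]
  have h2 := hex.choose_spec
  set n := hex.choose with hn
  rw [← hc] at h2 ⊢
  rw [Pool.Agent.H17BP.eval_smul_form (h.homG n)] at h2 ⊢
  rw [Pool.Agent.H17BP.eval_smul_form (h.hom n j)]
  have hn0 : eval x (G n) ≠ 0 := by
    intro h3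
    rw [h3] at h2
    simp at h2
  have hcn : c ^ e n ≠ 0 := pow_ne_zero _ hc0
  have hrel := hxU _ (h.rel m n j)
  rw [map_sub, map_mul, map_mul] at hrel
  rw [mul_div_mul_left _ _ hcn, div_eq_div_iff hn0 hm]
  linear_combination (-1 : ℂ) * hrel

/-- the functions are bounded near a point where the discs converge -/
theorem co_bound (hP : Homog P) (h : IsProperMap P G F e) {l : Filter ℕ} {Fn : ℕ → ℂ → PN N} {f : ℂ → PN N}
    (hf : IsLimitPN (locVar P G) l Fn f) (j : Fin (M + 1)) {z : ℂ} (hz : ConvPN l Fn f z) :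
    Tendsto (fun p : ℕ × ℂ => co G F j (Fn p.1 p.2)) (l ×ˢ 𝓝 z) (𝓝 (co G F j (f z))) := by
  have hU := hf.mem_of_conv z hz
  obtain ⟨s', Φ, Φ₀, hs, hΦ, hΦ₀, hfΦ, hlim⟩ := hz
  have hzs : z ∈ ball z s' := mem_ball_self hs
  obtain ⟨hne, hfz⟩ := hfΦ z hzs
  rw [hfz] at hU ⊢
  obtain ⟨hUP, m, hm⟩ := (mem_locVar_mk h.homG hP hne).1 hU
  rw [co_eq h hUP hm j]
  -- convergence of the coordinates
  have hc : Tendsto (fun p : ℕ × ℂ => Φ p.1 p.2) (l ×ˢ 𝓝 z) (𝓝 (Φ₀ z)) := by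
    have h1 := (tendstoLocallyUniformlyOn_iff_forall_tendsto.1 hlim) z hzs
    rw [isOpen_ball.nhdsWithin_eq hzs] at h1
    have h2 : Tendsto (fun y : ℕ × ℂ => Φ₀ y.2) (l ×ˢ 𝓝 z) (𝓝 (Φ₀ z)) :=
      ((hΦ₀.continuousOn.continuousAt (isOpen_ball.mem_nhds hzs)).tendsto).comp tendsto_snd
    rw [Metric.tendsto_nhds] at h2 ⊢
    intro ε hε
    filter_upwards [h2 (ε / 2) (by positivity), h1 (Metric.dist_mem_uniformity (show (0 : ℝ) < ε / 2 by positivity))] with y hy1 hy2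
    have hy2 : dist (Φ₀ y.2) (Φ y.1 y.2) < ε / 2 := hy2
    calc dist (Φ y.1 y.2) (Φ₀ z) ≤ dist (Φ y.1 y.2) (Φ₀ y.2) + dist (Φ₀ y.2) (Φ₀ z) := dist_triangle _ _ _
      _ < ε := by rw [dist_comm (Φ y.1 y.2)]; linarith
  have hq : ContinuousAt (fun x : Fin (N + 1) → ℂ => eval x (F m j) / eval x (G m)) (Φ₀ z) :=
    ((MvPolynomial.continuous_eval (F m j)).continuousAt).div ((MvPolynomial.continuous_eval (G m)).continuousAt) hm
  refine (hq.tendsto.comp hc).congr' ?_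
  have h3 : ∀ᶠ p : ℕ × ℂ in l ×ˢ 𝓝 z, eval (Φ p.1 p.2) (G m) ≠ 0 :=
    hc.eventually ((MvPolynomial.continuous_eval (G m)).continuousAt.eventually_ne hm)
  have h4 : ∀ᶠ p : ℕ × ℂ in l ×ˢ 𝓝 z, ∀ w ∈ ball z s', ∃ h : Φ p.1 w ≠ 0, Fn p.1 w = Projectivization.mk ℂ (Φ p.1 w) h :=
    (tendsto_fst.eventually hΦ).mono fun p hp => hp.2
  have h5 : ∀ᶠ p : ℕ × ℂ in l ×ˢ 𝓝 z, p.2 ∈ ball z s' := tendsto_snd.eventually (isOpen_ball.mem_nhds hzs)
  obtain ⟨n₀, hn₀⟩ := exists_nat_ge (‖z‖ + s')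
  have h6 : ∀ᶠ p : ℕ × ℂ in l ×ˢ 𝓝 z, n₀ ≤ p.1 := tendsto_fst.eventually (hf.le_atTop (eventually_ge_atTop n₀))
  filter_upwards [h3, h4, h5, h6] with p h3 h4 h5 h6
  obtain ⟨h7, h8⟩ := h4 p.2 h5
  have hpz : p.2 ∈ ball (0 : ℂ) (p.1 + 1) := by
    rw [mem_ball_zero_iff]
    have h9 : ‖p.2 - z‖ < s' := by simpa [dist_eq_norm] using h5
    have h10 : ‖p.2‖ ≤ ‖p.2 - z‖ + ‖z‖ := by
      have := norm_add_le (p.2 - z) z
      rwa [sub_add_cancel] at this
    have h11 : (n₀ : ℝ) ≤ p.1 := by exact_mod_cast h6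
    linarith
  have hmem := hf.memF p.1 p.2 hpz
  rw [h8] at hmem ⊢
  rw [co_eq h ((mem_locVar_mk h.homG hP h7).1 hmem).1 h3 j]
  rfl

/-- the functions are holomorphic along holomorphic curves -/
theorem co_diff (hP : Homog P) (h : IsProperMap P G F e) {g : ℂ → PN N} {z : ℂ} {V : Set ℂ} (hV : IsOpen V) (hz : z ∈ V)
    (hg : HolomorphicInto g V) (hgU : ∀ w ∈ V, g w ∈ locVar P G) (j : Fin (M + 1)) :
    DifferentiableAt ℂ (fun w => co G F j (g w)) z := by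
  obtain ⟨φ, hφ, he⟩ := hg z hz
  obtain ⟨h1, h2⟩ := he.self_of_nhds
  have h3 := hgU z hz
  rw [h2] at h3
  obtain ⟨hUP, m, hm⟩ := (mem_locVar_mk h.homG hP h1).1 h3
  have hpol : ∀ Q : MvPolynomial (Fin (N + 1)) ℂ, AnalyticAt ℂ (fun w => eval (φ w) Q) z := by
    intro Q
    have := AnalyticAt.aeval_mvPolynomial (𝕜 := ℂ) (fun i => (analyticAt_pi_iff.1 hφ) i) Q
    simpa [MvPolynomial.aeval_eq_eval] using this
  have h4 : DifferentiableAt ℂ (fun w => eval (φ w) (F m j) / eval (φ w) (G m)) z :=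
    (hpol _).differentiableAt.div (hpol _).differentiableAt hm
  refine h4.congr_of_eventuallyEq ?_
  filter_upwards [he, (hpol (G m)).continuousAt.eventually_ne hm, hV.mem_nhds hz] with w h5 h6 h7
  obtain ⟨h8, h9⟩ := h5
  have h10 := hgU w h7
  rw [h9] at h10 ⊢
  rw [co_eq h ((mem_locVar_mk h.homG hP h8).1 h10).1 h6 j]

/-- **The limits of discs lie in `U`**, if `U` is proper over an affine variety. -/
theorem limit_mem_of_proper (hP : Homog P) (h : IsProperMap P G F e) {l : Filter ℕ} {Fn : ℕ → ℂ → PN N} {f : ℂ → PN N}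
    (hf : IsLimitPN (locVar P G) l Fn f) (z₀ : ℂ) : f z₀ ∈ locVar P G := by
  have := hf.neBot
  obtain ⟨φ, hφ, he⟩ := hf.hol z₀ (Set.mem_univ _)
  obtain ⟨hx0, hfx⟩ := he.self_of_nhds
  have hpol : ∀ Q : MvPolynomial (Fin (N + 1)) ℂ, ContinuousAt (fun w => eval (φ w) Q) z₀ := fun Q =>
    (MvPolynomial.continuous_eval Q).continuousAt.comp hφ.continuousAt
  -- the points near `z₀`
  have hnear : ∀ᶠ z in 𝓝[≠] z₀, ConvPN l Fn f z := hf.conv z₀
  have hcoord : ∀ᶠ z in 𝓝[≠] z₀, ∃ h : φ z ≠ 0, f z = Projectivization.mk ℂ (φ z) h := he.filter_mono nhdsWithin_le_nhds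
  have hXP : ∀ Q ∈ P, eval (φ z₀) Q = 0 := by
    intro Q hQ
    have h1 : Tendsto (fun z => eval (φ z) Q) (𝓝[≠] z₀) (𝓝 (eval (φ z₀) Q)) := (hpol Q).tendsto.mono_left nhdsWithin_le_nhds
    refine tendsto_nhds_unique (h1.congr' ?_) tendsto_const_nhds
    filter_upwards [hnear, hcoord] with z h2 h3
    obtain ⟨h4, h5⟩ := h3
    have h6 := hf.mem_of_conv z h2
    rw [h5] at h6
    exact ((mem_locVar_mk h.homG hP h4).1 h6).1 Q hQ
  rw [hfx, mem_locVar_mk h.homG hP hx0]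
  refine ⟨hXP, ?_⟩
  by_contra hcon
  push Not at hcon
  obtain ⟨m, j, hmj⟩ := h.noZero (Projectivization.mk ℂ (φ z₀) hx0) (by
    intro Q hQ n hn
    rw [vanishesAt_mk hn]
    exact hXP Q hQ)
  rw [vanishesAt_mk (h.hom m j)] at hmj
  -- a circle
  obtain ⟨r₀, hr₀, hr₀b⟩ := Metric.mem_nhdsWithin_iff.1 hnear
  obtain ⟨r, hr, hrr₀⟩ := exists_between hr₀
  have hconv : ∀ z ∈ closedBall z₀ r, z ≠ z₀ → ConvPN l Fn f z := fun z hz hne =>
    hr₀b ⟨(closedBall_subset_ball hrr₀) hz, hne⟩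
  -- the bound on the circle
  obtain ⟨B, hB⟩ : ∃ B : ℝ, ∀ᶠ n in l, ∀ w ∈ sphere z₀ r, ‖co G F j (Fn n w)‖ ≤ B := by
    refine (isCompact_sphere z₀ r).induction_on (p := fun S => ∃ B : ℝ, ∀ᶠ n in l, ∀ w ∈ S, ‖co G F j (Fn n w)‖ ≤ B) ?_ ?_ ?_ ?_
    · exact ⟨0, Eventually.of_forall fun n w hw => absurd hw (Set.notMem_empty w)⟩
    · rintro S T hST ⟨B, hB⟩
      exact ⟨B, hB.mono fun n hn w hw => hn w (hST hw)⟩
    · rintro S T ⟨B, hB⟩ ⟨B', hB'⟩
      refine ⟨max B B', ?_⟩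
      filter_upwards [hB, hB'] with n h1 h2 w hw
      rcases hw with hw | hw
      · exact (h1 w hw).trans (le_max_left _ _)
      · exact (h2 w hw).trans (le_max_right _ _)
    · intro z hz
      have hzne : z ≠ z₀ := by
        rintro rfl
        rw [mem_sphere, dist_self] at hz
        exact hr.ne hz
      have h1 := co_bound hP h hf j (hconv z (sphere_subset_closedBall hz) hzne)
      have h2 : ∀ᶠ p : ℕ × ℂ in l ×ˢ 𝓝 z, ‖co G F j (Fn p.1 p.2)‖ < ‖co G F j (f z)‖ + 1 :=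
        h1.norm.eventually_lt_const (by linarith)
      obtain ⟨A, hA, T, hT, hAT⟩ := Filter.eventually_prod_iff.1 h2
      refine ⟨{w | T w}, mem_nhdsWithin_of_mem_nhds hT, ‖co G F j (f z)‖ + 1, ?_⟩
      filter_upwards [hA] with n hn w hw
      exact (hAT hn hw).le
  -- the maximum principle
  have hB2 : ∀ᶠ n in l, ∀ w ∈ ball z₀ r, ‖co G F j (Fn n w)‖ ≤ B := by
    obtain ⟨n₀, hn₀⟩ := exists_nat_ge (‖z₀‖ + r)
    filter_upwards [hB, hf.le_atTop (eventually_ge_atTop n₀)] with n h1 h2 w hw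
    have hsub : closedBall z₀ r ⊆ ball (0 : ℂ) (n + 1) := by
      intro y hy
      rw [mem_ball_zero_iff]
      have h9 : ‖y - z₀‖ ≤ r := by simpa [dist_eq_norm] using hy
      have h10 : ‖y‖ ≤ ‖y - z₀‖ + ‖z₀‖ := by
        have := norm_add_le (y - z₀) z₀
        rwa [sub_add_cancel] at this
      have h11 : (n₀ : ℝ) ≤ n := by exact_mod_cast h2
      linarith
    have hd : DiffContOnCl ℂ (fun w => co G F j (Fn n w)) (ball z₀ r) := by
      have h3 : DifferentiableOn ℂ (fun w => co G F j (Fn n w)) (closedBall z₀ r) := fun y hy =>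
        (co_diff hP h isOpen_ball (hsub hy) (hf.holF n) (hf.memF n) j).differentiableWithinAt
      exact DifferentiableOn.diffContOnCl (by rwa [closure_ball z₀ hr.ne'])
    refine Complex.norm_le_of_forall_mem_frontier_norm_le isBounded_ball hd (fun y hy => h1 y ?_) (subset_closure hw)
    rwa [frontier_ball z₀ hr.ne'] at hy
  -- the bound for the limit
  have hB3 : ∀ z ∈ ball z₀ r, z ≠ z₀ → ‖co G F j (f z)‖ ≤ B := by
    intro z hz hne
    have h1 := co_bound hP h hf j (hconv z (ball_subset_closedBall hz) hne)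
    have h0 : Tendsto (fun n : ℕ => (n, z)) l (l ×ˢ 𝓝 z) := tendsto_id.prodMk tendsto_const_nhds
    have h2 : Tendsto (fun n : ℕ => ‖co G F j (Fn n z)‖) l (𝓝 ‖co G F j (f z)‖) := (h1.comp h0).norm
    exact le_of_tendsto h2 (hB2.mono fun n hn => hn z hz)
  have hfin : ∀ᶠ z in 𝓝[≠] z₀, ‖eval (φ z) (F m j)‖ ≤ B * ‖eval (φ z) (G m)‖ := by
    have h1 : ∀ᶠ z in 𝓝[≠] z₀, z ∈ ball z₀ r := mem_nhdsWithin_of_mem_nhds (ball_mem_nhds z₀ hr)
    have h2 : ∀ᶠ z in 𝓝[≠] z₀, z ≠ z₀ := eventually_mem_nhdsWithin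
    filter_upwards [hnear, hcoord, h1, h2] with z h2 h3 h4 h5
    obtain ⟨h6, h7⟩ := h3
    have h8 := hf.mem_of_conv z h2
    have h9 := hB3 z h4 h5
    rw [h7] at h8 h9
    obtain ⟨h10, n, hn⟩ := (mem_locVar_mk h.homG hP h6).1 h8
    by_cases hm : eval (φ z) (G m) = 0
    · have hrel := h10 _ (h.rel m n j)
      rw [map_sub, map_mul, map_mul, hm, mul_zero, sub_zero] at hrel
      rcases mul_eq_zero.1 hrel with h11 | h11
      · rw [h11, hm]
        simp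
      · exact absurd h11 hn
    · rw [co_eq h h10 hm j, norm_div, div_le_iff₀ (norm_pos_iff.2 hm)] at h9
      exact h9
  have h1 : Tendsto (fun z => ‖eval (φ z) (F m j)‖) (𝓝[≠] z₀) (𝓝 ‖eval (φ z₀) (F m j)‖) :=
    (hpol _).norm.tendsto.mono_left nhdsWithin_le_nhds
  have h2 : Tendsto (fun z => B * ‖eval (φ z) (G m)‖) (𝓝[≠] z₀) (𝓝 (B * ‖eval (φ z₀) (G m)‖)) :=
    ((hpol _).norm.tendsto.mono_left nhdsWithin_le_nhds).const_mul B
  have h3 := le_of_tendsto_of_tendsto h1 h2 hfin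
  rw [hcon m, norm_zero, mul_zero] at h3
  exact hmj (norm_le_zero_iff.1 h3)

/-- In a variety which is proper over an affine variety the hypothesis on the limits is a hypothesis on entire curves. -/
theorem limModPN_of_proper (hP : Homog P) (h : IsProperMap P G F e) {Ξ : Set (PN N)}
    (hbr : ∀ f : ℂ → PN N, HolomorphicInto f Set.univ → OrderTwo f → (∀ z, f z ∈ locVar P G) →
      (∃ z w, f z ≠ f w) → ∀ z, f z ∈ Ξ) : LimModPN (locVar P G) Ξ :=
  fun _ _ f hf hord hne z _ => hbr f hf.hol hord (fun w => limit_mem_of_proper hP h hf w) hne z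

end Pool.Agent.H36.LB
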