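import Pool.Agent.H62.SA.StartF
import Pool.Agent.H17BP.SameK
import Pool.Agent.H36.LB.PNConv
import Pool.Agent.H36.LB.Ind

/-!
# LB Start: the model of an open surface
-/

set_option autoImplicit false

open Topology Filter MvPolynomial

noncomputable section

namespace Pool.Agent.H36.LB

open Pool.Agent.H17 (PN VanishesAt ZariskiClosedIn HolomorphicInto puncturedDisc)
open Pool.Agent.H62.FC (Homog)
open Pool.Agent.H62.SA (locVar locCone locCone_smul rep_mem_locCone mk_mem_locVar)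
open Pool.Agent.H17BP (Surface IsChart IsForm NoZeros Pr HolP Picard Eqs Tan rep_mk_fin eval_smul_form
  rep_mem_cone vanishesAt_mk holP_rep)
open Pool.Agent.H36.BPL (OpenPart PoleLE analyticAt_form isForm_pow_mul)
open Pool.Agent.H13.OT (OrderTwo)
open Pool.Agent.H68.KR (cone)

variable {N : ℕ} {P : Ideal (MvPolynomial (Fin (N + 1)) ℂ)} {s : ℕ} {G : Fin s → MvPolynomial (Fin (N + 1)) ℂ} {e : Fin s → ℕ}

/-- The cone of a closed subvariety is closed. -/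
theorem cone_cl : ∀ x ∈ closure (cone P), x ≠ 0 → x ∈ cone P := Pool.Agent.H17BP.cone_closed

/-- The initial model. -/
theorem modelL_start [hPp : P.IsPrime] (hP : Homog P) (hG : ∀ m, (G m).IsHomogeneous (e m)) (hO : OpenPart (cone P) (locCone P G)) (hX : Surface (cone P))
    (hthin : ∀ σ τ, IsChart (cone P) σ τ → ∀ (d : ℕ) (Q : MvPolynomial (Fin (N + 1)) ℂ), Q.IsHomogeneous d →
      Q ∉ P → ∃ᶠ p in 𝓝 (0 : ℂ × ℂ), eval (σ p) Q ≠ 0)
    {m₀ : Fin s} (hm₀ : G m₀ ∉ P)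
    {k D₀ D₁ : ℕ} (hk : 1 ≤ k) {Ω : (Fin (N + 1) → ℂ) → (Fin (N + 1) → ℂ) → (Fin (N + 1) → ℂ) → ℂ}
    (hΩ : IsForm (locCone P G) k 1 Ω) (hpole : PoleLE (cone P) (locCone P G) k Ω)
    {Q₀ : MvPolynomial (Fin (N + 1)) ℂ} (hQ₀ : Q₀.IsHomogeneous D₀) (hQ₀P : Q₀ ∉ P)
    (hz : NoZeros (locCone P G) {x | x ∈ locCone P G ∧ eval x Q₀ = 0} Ω)
    {Q₁ : MvPolynomial (Fin (N + 1)) ℂ} (hQ₁ : Q₁.IsHomogeneous D₁) (hQ₁P : Q₁ ∉ P) (hD₁ : 1 ≤ D₁)
    (hb : Lim2 (cone P) (locCone P G) {x | x ∈ cone P ∧ eval x (G m₀ * Q₀ * Q₁) = 0}) :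
    ModelL (cone P) (locCone P G) {x | x ∈ cone P ∧ eval x (G m₀ * Q₀ * Q₁) = 0} (k * (e m₀ + 1)) 1
      (fun x v w => eval x (G m₀) * Ω x v w ^ (e m₀ + 1))
      (fun (_ : Unit) x => eval x (G m₀ * Q₀ * Q₁)) (e m₀ + D₀ + D₁) := by
  set d := e m₀ with hd
  have hH₀ : (G m₀).IsHomogeneous d := hG m₀
  set Q : MvPolynomial (Fin (N + 1)) ℂ := G m₀ * Q₀ * Q₁ with hQdef
  have hQhom : Q.IsHomogeneous (d + D₀ + D₁) := (hH₀.mul hQ₀).mul hQ₁
  have hQP : Q ∉ P := by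
    intro h
    rcases hPp.mem_or_mem h with h | h
    · rcases hPp.mem_or_mem h with h | h
      · exact hm₀ h
      · exact hQ₀P h
    · exact hQ₁P h
  have hout : ∀ x ∈ cone P, x ∉ locCone P G → eval x (G m₀) = 0 := by
    intro x hx hxK
    by_contra h1
    exact hxK ⟨hx, m₀, h1⟩
  have hform := isForm_pow_mul (k := d + 1) (d := d) (by omega) hΩ (H := fun x => eval x (G m₀)) (analyticAt_form _)
    (fun c x => eval_smul_form hH₀ c x) (locCone_smul hP hG)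
  have h1 : 1 * (d + 1) - d = 1 := by omega
  rw [h1] at hform
  refine ⟨hX, hO, ?_, Nat.mul_pos hk (Nat.succ_pos _), le_rfl,
    hform, ?_, ?_, ⟨by omega, ?_, ?_, ?_, ?_⟩, ?_, hb⟩
  · intro x hx hxK
    refine ⟨hx, ?_⟩
    rw [hQdef, map_mul, map_mul, hout x hx hxK, zero_mul, zero_mul]
  · intro x hx hxT v hv w hw hi
    have h2 : eval x (G m₀) ≠ 0 := by
      intro h0
      refine hxT ⟨hx.1, ?_⟩
      rw [hQdef, map_mul, map_mul, h0, zero_mul, zero_mul]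
    refine mul_ne_zero h2 (pow_ne_zero _ (hz x hx (fun h => hxT ⟨hx.1, ?_⟩) v hv w hw hi))
    rw [hQdef, map_mul, map_mul, h.2, mul_zero, zero_mul]
  · exact PoleLE.pow_mul hk (Nat.succ_pos d) hpole (H := fun x => eval x (G m₀)) (analyticAt_form _) hout
  · intro _ x
    exact analyticAt_form Q x
  · intro _ c x
    exact eval_smul_form hQhom c x
  · intro x
    exact ⟨fun h => ⟨h.1, fun _ => h.2⟩, fun h => ⟨h.1, h.2 ()⟩⟩
  · intro x hx
    exact ⟨(), Eventually.of_forall fun y hy h => ⟨hy, h⟩⟩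
  · intro σ τ h
    exact (hthin σ τ h _ Q hQhom hQP).mono fun p hp hpB => hp hpB.2

/-- **The model of an open surface which is proper over an affine variety**, with a section of a multiple of the logarithmic canonical
bundle minus a hyperplane, such that the nonconstant entire curves of order at most two lie in a proper closed subset. -/
theorem exists_modelL [hPp : P.IsPrime] (hP : Homog P) (hG : ∀ m, (G m).IsHomogeneous (e m)) (hO : OpenPart (cone P) (locCone P G)) (hX : Surface (cone P))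
    (hthin : ∀ σ τ, IsChart (cone P) σ τ → ∀ (d : ℕ) (Q : MvPolynomial (Fin (N + 1)) ℂ), Q.IsHomogeneous d →
      Q ∉ P → ∃ᶠ p in 𝓝 (0 : ℂ × ℂ), eval (σ p) Q ≠ 0)
    {k D₀ : ℕ} (hk : 1 ≤ k) {Ω : (Fin (N + 1) → ℂ) → (Fin (N + 1) → ℂ) → (Fin (N + 1) → ℂ) → ℂ}
    (hΩ : IsForm (locCone P G) k 1 Ω) (hpole : PoleLE (cone P) (locCone P G) k Ω)
    {Q₀ : MvPolynomial (Fin (N + 1)) ℂ} (hQ₀ : Q₀.IsHomogeneous D₀) (hQ₀P : Q₀ ∉ P)
    (hz : NoZeros (locCone P G) {x | x ∈ locCone P G ∧ eval x Q₀ = 0} Ω) {Ξ : Set (PN N)}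
    (hΞ : ZariskiClosedIn (locVar P G) Ξ) (hne : Ξ ≠ locVar P G)
    (hbr : LimModPN (locVar P G) Ξ) :
    ∃ (Q : MvPolynomial (Fin (N + 1)) ℂ) (D : ℕ), Q.IsHomogeneous D ∧ Q ∉ P ∧
      (∃ x ∈ locVar P G, ¬ VanishesAt Q x) ∧ (∀ x ∈ Ξ, VanishesAt Q x) ∧
      ∃ (m j : ℕ) (Ω' : (Fin (N + 1) → ℂ) → (Fin (N + 1) → ℂ) → (Fin (N + 1) → ℂ) → ℂ),
        ModelL (cone P) (locCone P G) {x | x ∈ cone P ∧ eval x Q = 0} m j Ω' (fun (_ : Unit) x => eval x Q) D := by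
  classical
  obtain ⟨S, hS, rfl⟩ := hΞ
  -- a form which vanishes on the exceptional set
  obtain ⟨x₁, hx₁, hx₁S⟩ : ∃ x ∈ locVar P G, ∃ Q ∈ S, ¬ VanishesAt Q x := by
    by_contra hcon
    push Not at hcon
    apply hne
    ext x
    exact ⟨fun h => h.1, fun h => ⟨h, hcon x h⟩⟩
  obtain ⟨Q₁, hQ₁S, hQ₁x⟩ := hx₁S
  obtain ⟨d₁, hQ₁⟩ := hS Q₁ hQ₁S
  have hQ₁P : Q₁ ∉ P := fun h => hQ₁x (hx₁.1 Q₁ h d₁ hQ₁)
  have hx₁K : x₁.rep ∈ locCone P G := (rep_mem_locCone hP).2 hx₁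
  obtain ⟨m₀, hm₀x⟩ := hx₁K.2
  have hm₀ : G m₀ ∉ P := fun h => hm₀x (hx₁K.1.2 _ h)
  obtain ⟨l, hl⟩ : ∃ l, x₁.rep l ≠ 0 := by
    by_contra hcon
    push Not at hcon
    exact x₁.rep_nonzero (funext hcon)
  have hlP : (X l : MvPolynomial (Fin (N + 1)) ℂ) ∉ P := by
    intro h
    have := hx₁K.1.2 _ h
    rw [eval_X] at this
    exact hl this
  have hQ₂ : (Q₁ * X l).IsHomogeneous (d₁ + 1) := hQ₁.mul (isHomogeneous_X ℂ l)
  have hQ₂P : Q₁ * X l ∉ P := fun h => (hPp.mem_or_mem h).elim hQ₁P hlP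
  have hout : ∀ x ∈ cone P, x ∉ locCone P G → eval x (G m₀) = 0 := by
    intro x hx hxK
    by_contra h1
    exact hxK ⟨hx, m₀, h1⟩
  have hBr : Lim2 (cone P) (locCone P G) {x | x ∈ cone P ∧ eval x (G m₀ * Q₀ * (Q₁ * X l)) = 0} := by
    refine lim2_of_limModPN (fun x hx => hx.1) hX.smul cone_cl hO ?_ (fun x hx0 => mk_mem_locVar hP hG hx0) ?_ hbr
    · intro x hx hxK
      refine ⟨hx, ?_⟩
      rw [map_mul, map_mul, hout x hx hxK, zero_mul, zero_mul]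
    · intro x hx0 hx hxΞ
      have h2 := hxΞ.2 Q₁ hQ₁S
      rw [vanishesAt_mk hQ₁] at h2
      refine ⟨hx.1, ?_⟩
      rw [map_mul, map_mul (eval x) Q₁, h2, zero_mul, mul_zero]
  have hmodel := modelL_start hP hG hO hX hthin hm₀ hk hΩ hpole hQ₀ hQ₀P hz hQ₂ hQ₂P (by omega) hBr
  set Q : MvPolynomial (Fin (N + 1)) ℂ := G m₀ * Q₀ * (Q₁ * X l) with hQdef
  have hQhom : Q.IsHomogeneous (e m₀ + D₀ + (d₁ + 1)) := ((hG m₀).mul hQ₀).mul hQ₂
  have hQP : Q ∉ P := by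
    intro h'
    rcases hPp.mem_or_mem h' with h' | h'
    · rcases hPp.mem_or_mem h' with h' | h'
      · exact hm₀ h'
      · exact hQ₀P h'
    · exact hQ₂P h'
  refine ⟨Q, e m₀ + D₀ + (d₁ + 1), hQhom, hQP, ?_, ?_, _, _, _, hmodel⟩
  · -- properness
    obtain ⟨σ, τ, h', hσ0⟩ := hX.chart x₁.rep hx₁K.1
    have hKσ : ∀ᶠ p in 𝓝 (0 : ℂ × ℂ), σ p ∈ locCone P G := by
      have h1 := h'.σ_an.continuousAt.tendsto
      rw [hσ0] at h1
      filter_upwards [h1.eventually (hO.rel _ hx₁K), h'.σ_mem] with p h2 h3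
      exact h2 h3
    obtain ⟨p, hp1, hp2⟩ := ((hthin σ τ h' _ Q hQhom hQP).and_eventually hKσ).exists
    have h3 : Projectivization.mk ℂ (σ p) hp2.1.1 ∈ locVar P G := (mk_mem_locVar hP hG hp2.1.1).2 hp2
    exact ⟨_, h3, fun h4 => hp1 ((vanishesAt_mk hQhom hp2.1.1).1 h4)⟩
  · intro x hx
    have h1 : eval x.rep Q₁ = 0 := hx.2 Q₁ hQ₁S
    show eval x.rep Q = 0
    rw [hQdef, map_mul, map_mul, map_mul, h1, zero_mul, mul_zero]

/-- The extension theorem for maps into the projective space. -/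
theorem extends_of_modelL (hP : Homog P)
    {Q : MvPolynomial (Fin (N + 1)) ℂ} {D m j : ℕ} {Ω : (Fin (N + 1) → ℂ) → (Fin (N + 1) → ℂ) → (Fin (N + 1) → ℂ) → ℂ}
    (h : ModelL (cone P) (locCone P G) {x | x ∈ cone P ∧ eval x Q = 0} m j Ω (fun (_ : Unit) x => eval x Q) D)
    {f : ℂ → PN N} (hf : HolomorphicInto f puncturedDisc) (hfX : ∀ z ∈ puncturedDisc, f z ∈ locVar P G)
    (hfQ : ∃ z ∈ puncturedDisc, ¬ VanishesAt Q (f z)) :
    ∃ g : ℂ → PN N, HolomorphicInto g (Metric.ball 0 1) ∧ ∀ z ∈ puncturedDisc, g z = f z := by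
  obtain ⟨z₁, hz₁, hz₁Q⟩ := hfQ
  have hball : ∀ z : ℂ, z ≠ 0 → ‖z‖ < 1 → z ∈ puncturedDisc := fun z h0 h1 => ⟨by simpa using h1, h0⟩
  have hball' : ∀ z ∈ puncturedDisc, z ≠ 0 ∧ ‖z‖ < 1 := fun z hz => ⟨hz.2, by simpa using hz.1⟩
  obtain ⟨F, hF, hF0, he⟩ := (picKob_of_modelL h).1 1 one_pos (fun z => (f z).rep)
    (fun z h0 h1 => ⟨holP_rep hf (hball z h0 h1), (rep_mem_locCone hP).2 (hfX z (hball z h0 h1))⟩)
    ⟨z₁, (hball' z₁ hz₁).1, (hball' z₁ hz₁).2, fun h => hz₁Q h.2⟩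
  classical
  refine ⟨fun z => if z = 0 then Projectivization.mk ℂ (F 0) hF0 else f z, ?_, ?_⟩
  · intro z₀ hz₀
    by_cases h0 : z₀ = 0
    · subst h0
      refine ⟨F, hF, ?_⟩
      rw [eventually_nhdsWithin_iff] at he
      filter_upwards [he, hF.continuousAt.eventually_ne hF0] with z h1 h2
      refine ⟨h2, ?_⟩
      by_cases h3 : z = 0
      · subst h3
        rw [if_pos rfl]
      · rw [if_neg h3, ← (h1 h3).mk_eq (f z).rep_nonzero h2, Projectivization.mk_rep]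
    · obtain ⟨φ, hφ, hφe⟩ := hf z₀ ⟨hz₀, h0⟩
      refine ⟨φ, hφ, ?_⟩
      filter_upwards [hφe, isOpen_compl_singleton.mem_nhds (show z₀ ∈ ({0} : Set ℂ)ᶜ from h0)] with z h1 h2
      obtain ⟨h3, h4⟩ := h1
      have h5 : z ≠ 0 := h2
      exact ⟨h3, by rw [if_neg h5, h4]⟩
  · intro z hz
    exact if_neg hz.2

end Pool.Agent.H36.LB
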